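import Pool.Agent.R367.TF.Stm

set_option autoImplicit false

namespace R367.TF.CHASE

open Finset R367.TF

theorem main : S_SUP → S_LOC → S_CHASE := by
  intro hSUP hLOC V _ G _ r K U hr hK
  have hf : ∀ d : ℕ, d ≤ K → d.choose r ≤ f K r d := by
    intro d hd
    unfold f
    rcases Nat.lt_or_eq_of_le hd with h | h
    · rw [Nat.div_eq_of_lt h, Nat.mod_eq_of_lt h]
      omega
    · subst h
      rw [Nat.div_self (by omega)]
      omega
  induction hn : U.card using Nat.strong_induction_on generalizing U with
  | _ n ih =>
    intro hdeg
    rcases U.eq_empty_or_nonempty with h0 | h0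
    · subst h0
      have : cl G r (∅ : Finset V) = ∅ := by
        unfold cl
        rw [Finset.powersetCard_eq_empty.mpr (by simp; omega)]
        simp
      rw [this]
      simp
    · obtain ⟨z, hz, hle⟩ := hLOC V G r U hr h0
      have hznb : z ∉ nb G z U := by
        unfold nb
        simp
      have hcard : (insert z (nb G z U)).card = (nb G z U).card + 1 :=
        Finset.card_insert_of_notMem hznb
      have hsub : insert z (nb G z U) ⊆ U := by
        intro w hw
        rcases Finset.mem_insert.mp hw with h | h
        · rw [h]; exact hz
        · exact (Finset.mem_filter.mp h).1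
      have hc2 : (U \ insert z (nb G z U)).card = n - ((nb G z U).card + 1) := by
        rw [Finset.card_sdiff_of_subset hsub, hcard, hn]
      have hle2 : (nb G z U).card + 1 ≤ n := by
        rw [← hcard, ← hn]; exact Finset.card_le_card hsub
      have hdz := hdeg z hz
      have h1 := ih (n - ((nb G z U).card + 1)) (by omega) (U \ insert z (nb G z U)) hc2 (by
        intro v hv
        have hvU : v ∈ U := (Finset.mem_sdiff.mp hv).1
        have hs : nb G v (U \ insert z (nb G z U)) ⊆ nb G v U := by
          intro w hw
          unfold nb at hw ⊢
          rw [Finset.mem_filter] at hw ⊢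
          exact ⟨(Finset.mem_sdiff.mp hw.1).1, hw.2⟩
        have := Finset.card_le_card hs
        have := hdeg v hvU
        omega)
      have h2 := hf _ hdz
      have h3 := hSUP K r (n - ((nb G z U).card + 1)) ((nb G z U).card + 1) hK (by omega)
      have h4 : n - ((nb G z U).card + 1) + ((nb G z U).card + 1) = n := by omega
      rw [h4] at h3
      omega

end R367.TF.CHASE
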