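import Pool.Agent.R367.TF.Stm

set_option autoImplicit false

namespace R367.TF.CNT

open Finset

theorem main : S_CNT := by
  intro V _ G _ j t U
  have h1 : (j + t).choose j * (cl G (j + t) U).card =
      ((cl G (j + t) U).sigma (fun R => R.powersetCard j)).card := by
    rw [card_sigma, sum_congr rfl (g := fun _ => (j + t).choose j), sum_const, smul_eq_mul,
      mul_comm]
    intro R hR
    rw [card_powersetCard, (mem_powersetCard.1 (mem_filter.1 hR).1).2]
  rw [h1, ← card_sigma]
  refine card_le_card_of_injOn (fun p => ⟨p.2, p.1 \ p.2⟩) ?_ ?_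
  · rintro ⟨R, Q⟩ h
    have h := mem_sigma.1 (mem_coe.1 h)
    obtain ⟨hR, hQ⟩ := h
    simp only at hR hQ
    obtain ⟨hR1, hR2⟩ := mem_filter.1 hR
    obtain ⟨hRU, hRc⟩ := mem_powersetCard.1 hR1
    obtain ⟨hQR, hQc⟩ := mem_powersetCard.1 hQ
    apply mem_coe.2
    rw [mem_sigma]
    constructor
    · simp only
      refine mem_filter.2 ⟨mem_powersetCard.2 ⟨hQR.trans hRU, hQc⟩, ?_⟩
      intro a ha b hb hab
      exact hR2 a (hQR ha) b (hQR hb) hab
    · simp only
      refine mem_filter.2 ⟨mem_powersetCard.2 ⟨?_, ?_⟩, ?_⟩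
      · intro a ha
        obtain ⟨ha1, ha2⟩ := mem_sdiff.1 ha
        refine mem_filter.2 ⟨hRU ha1, ?_⟩
        intro v hv
        exact hR2 v (hQR hv) a ha1 (fun he => ha2 (he ▸ hv))
      · rw [card_sdiff_of_subset hQR, hRc, hQc]
        omega
      · intro a ha b hb hab
        exact hR2 a (mem_sdiff.1 ha).1 b (mem_sdiff.1 hb).1 hab
  · rintro ⟨R, Q⟩ h ⟨R', Q'⟩ h' he
    have h := mem_sigma.1 (mem_coe.1 h)
    have h' := mem_sigma.1 (mem_coe.1 h')
    simp only [Sigma.mk.injEq] at he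
    obtain ⟨rfl, he⟩ := he
    have he := eq_of_heq he
    have h2 : Q ⊆ R := (mem_powersetCard.1 h.2).1
    have h3 : Q ⊆ R' := (mem_powersetCard.1 h'.2).1
    have : R = R' := by
      rw [← Finset.sdiff_union_of_subset h2, he, Finset.sdiff_union_of_subset h3]
    subst this
    rfl

end R367.TF.CNT
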