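import Pool.Agent.R367.TF.Stm

/-! TF-CORE: the `q`-core of a graph. -/

set_option autoImplicit false

namespace R367.TF.CORE

open Finset

theorem main : S_CORE := by
  classical
  intro V _ G _ q U
  set F := U.powerset.filter (fun C => ∀ v ∈ C, q ≤ (nb G v C).card) with hFdef
  have hF : F.Nonempty := ⟨∅, by simp [F]⟩
  obtain ⟨C, hC, hmax⟩ := F.exists_max_image Finset.card hF
  simp only [hFdef, mem_filter, mem_powerset] at hC hmax
  refine ⟨C, hC.1, hC.2, fun X hX hne => ?_⟩
  by_contra hcon
  simp only [not_exists, not_and, not_lt] at hcon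
  have h1 := hmax (X ∪ C) ⟨union_subset (hX.trans sdiff_subset) hC.1, by
    intro v hv
    rcases mem_union.1 hv with h | h
    · exact hcon v h
    · exact (hC.2 v h).trans (card_le_card (filter_subset_filter _ subset_union_right))⟩
  have hd : Disjoint X C := by
    rw [Finset.disjoint_left]
    intro x hx hxC
    exact (mem_sdiff.1 (hX hx)).2 hxC
  rw [card_union_of_disjoint hd] at h1
  have := hne.card_pos
  omega

end R367.TF.CORE
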