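import Pool.Agent.R367.TF.Stm

/-! TF-COV: a clique with many common neighbours contains every graph with a small vertex cover. -/

set_option autoImplicit false

namespace R367.TF.COV

open Finset

theorem main : S_COV := by
  classical
  intro k T S hS V _ G _ Q U hQ hcl hcn
  have hcard : (Sᶜ).card ≤ (cn G Q U).card := by
    rw [card_compl, Fintype.card_fin]
    exact hcn
  obtain ⟨N, hN, hNc⟩ := exists_subset_card_eq hcard
  let e : S ≃ Q := Finset.equivOfCardEq hQ.symm
  let i : (Sᶜ : Finset (Fin k)) ≃ N := Finset.equivOfCardEq hNc.symm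
  have hadj : ∀ (x : Q) (y : N), G.Adj (x : V) (y : V) := by
    intro x y
    have h1 := hN y.2
    unfold cn at h1
    exact (mem_filter.1 h1).2 x x.2
  have hne : ∀ (x : Q) (y : N), (x : V) ≠ y := fun x y => (hadj x y).ne
  let φ : Fin k → V := fun a =>
    if h : a ∈ S then (e ⟨a, h⟩ : V) else (i ⟨a, mem_compl.2 h⟩ : V)
  have hφS : ∀ a (h : a ∈ S), φ a = (e ⟨a, h⟩ : V) := fun a h => dif_pos h
  have hφN : ∀ a (h : a ∉ S), φ a = (i ⟨a, mem_compl.2 h⟩ : V) := fun a h => dif_neg h
  have hinj : Function.Injective φ := by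
    intro a b hab
    by_cases ha : a ∈ S <;> by_cases hb : b ∈ S
    · rw [hφS a ha, hφS b hb] at hab
      have := e.injective (Subtype.ext hab)
      exact congrArg (fun z : S => (z : Fin k)) this
    · rw [hφS a ha, hφN b hb] at hab
      exact absurd hab (hne _ _)
    · rw [hφN a ha, hφS b hb] at hab
      exact absurd hab.symm (hne _ _)
    · rw [hφN a ha, hφN b hb] at hab
      have := i.injective (Subtype.ext hab)
      exact congrArg (fun z : (Sᶜ : Finset (Fin k)) => (z : Fin k)) this
  refine ⟨φ, hinj, fun a b hab => ?_⟩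
  by_cases ha : a ∈ S <;> by_cases hb : b ∈ S
  · have hn : φ a ≠ φ b := fun h => hab.ne (hinj h)
    rw [hφS a ha, hφS b hb] at hn ⊢
    exact hcl _ (e ⟨a, ha⟩).2 _ (e ⟨b, hb⟩).2 hn
  · rw [hφS a ha, hφN b hb]
    exact hadj _ _
  · rw [hφN a ha, hφS b hb]
    exact (hadj _ _).symm
  · rcases hS a b hab with h | h
    · exact absurd h ha
    · exact absurd h hb

end R367.TF.COV
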