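import Pool.Agent.R367.TF.Main1

set_option autoImplicit false

namespace R367.TF

open Finset

/-- a vertex with `j` non-leaf neighbours and `l` leaf neighbours: `2 j + l + 1 ≤ k` -/
theorem two_nl (hTREE : S_TREE) {k : ℕ} (T : SimpleGraph (Fin k)) (hT : T.IsTree) (x : Fin k) :
    (lf T x).card + 2 * (nl T x).card ≤ k - 1 := by
  classical
  obtain ⟨h, p, hx, hp⟩ := hTREE k T x hT
  have h1 : ∀ y, T.Adj x y → h y = 1 ∧ p y = x := by
    intro y hy
    have hyx : y ≠ x := hy.ne'
    obtain ⟨a1, a2, a3⟩ := hp y hyx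
    rcases a3 x hy.symm with e | e
    · exact ⟨by rw [← a2, ← e, hx], e.symm⟩
    · rw [hx] at e; omega
  have hu : ∀ y, y ∈ nl T x → ∃ u, T.Adj y u ∧ u ≠ x := fun y hy => ((mem_nl T x y).1 hy).2
  choose! u hu1 hu2 using hu
  have hu3 : ∀ y ∈ nl T x, h (u y) = 2 ∧ p (u y) = y := by
    intro y hy
    have hy1 := h1 y ((mem_nl T x y).1 hy).1
    have hyx : y ≠ x := ((mem_nl T x y).1 hy).1.ne'
    have a := (hp y hyx).2.2 (u y) (hu1 y hy)
    have e2 : h (u y) = 2 := by
      rcases a with e | e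
      · rw [hy1.2] at e; exact absurd e (hu2 y hy)
      · rw [e, hy1.1]
    refine ⟨e2, ?_⟩
    rcases (hp (u y) (hu2 y hy)).2.2 y (hu1 y hy).symm with e | e
    · exact e.symm
    · rw [hy1.1, e2] at e; omega
  have hinj : Set.InjOn u (nl T x : Set (Fin k)) := by
    intro a ha b hb hab
    rw [← (hu3 a ha).2, ← (hu3 b hb).2, hab]
  have hc : ((nl T x).image u).card = (nl T x).card := Finset.card_image_of_injOn hinj
  have hd : Disjoint (lf T x ∪ nl T x) ((nl T x).image u) := by
    rw [Finset.disjoint_left]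
    intro y hy hy2
    obtain ⟨a, ha, rfl⟩ := Finset.mem_image.1 hy2
    have e2 := (hu3 a ha).1
    have : T.Adj x (u a) := by
      rcases Finset.mem_union.1 hy with e | e
      · exact ((mem_lf T x _).1 e).1
      · exact ((mem_nl T x _).1 e).1
    have := (h1 _ this).1
    omega
  have hd2 : Disjoint (lf T x) (nl T x) := by
    rw [Finset.disjoint_left]
    intro y h1 h2
    rw [mem_lf] at h1
    rw [mem_nl] at h2
    obtain ⟨_, w, hw, hne⟩ := h2
    exact hne (h1.2 w hw)
  have hsub : (lf T x ∪ nl T x) ∪ (nl T x).image u ⊆ univ.erase x := by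
    intro y hy
    rw [Finset.mem_erase]
    refine ⟨?_, Finset.mem_univ _⟩
    rintro rfl
    rcases Finset.mem_union.1 hy with hy | hy
    · have : T.Adj y y := by
        rcases Finset.mem_union.1 hy with e | e
        · exact ((mem_lf T y _).1 e).1
        · exact ((mem_nl T y _).1 e).1
      exact T.loopless.irrefl _ this
    · obtain ⟨a, ha, hau⟩ := Finset.mem_image.1 hy
      exact hu2 a ha hau
  have := Finset.card_le_card hsub
  rw [Finset.card_union_of_disjoint hd, Finset.card_union_of_disjoint hd2, hc,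
    Finset.card_erase_of_mem (Finset.mem_univ x), Finset.card_univ, Fintype.card_fin] at this
  omega

theorem num_cor {k l j : ℕ} (h1 : l + 2 * j ≤ k - 1) (h2 : 5 * k ≤ 9 * l) (hk : 2 ≤ k) :
    3 * (k - 2 - l).choose 2 ≤ (k - j).choose 2 := by
  rcases Nat.lt_or_ge (k - 2 - l) 2 with hlt | hge
  · rw [Nat.choose_eq_zero_of_lt hlt]; simp
  obtain ⟨m, hm⟩ : ∃ m, k - 2 - l = m + 2 := ⟨k - 2 - l - 2, by omega⟩
  obtain ⟨n, hn⟩ : ∃ n, k - j = n + 1 := ⟨k - j - 1, by omega⟩
  rw [hm, hn]
  have e1 : 2 * (m + 2).choose 2 = (m + 2) * (m + 1) := by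
    have := Nat.add_one_mul_choose_eq (m + 1) 1
    rw [Nat.choose_one_right] at this
    linarith [this]
  have e2 : 2 * (n + 1).choose 2 = (n + 1) * n := by
    have := Nat.add_one_mul_choose_eq n 1
    rw [Nat.choose_one_right] at this
    linarith [this]
  have h3 : 7 * (m + 4) ≤ 4 * (n + 1) := by omega
  have h4 : 3 * ((m + 2) * (m + 1)) ≤ (n + 1) * n := by nlinarith
  omega

end R367.TF
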