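import Pool.Agent.R367.TF.Stm

set_option autoImplicit false

namespace R367.TF.DEG

open Finset

theorem step {V : Type} [DecidableEq V] (G : SimpleGraph V) [DecidableRel G.Adj]
    (q r : ℕ) (W : Finset V) (v : V) (hr : 1 ≤ r) (hv : (nb G v W).card < q) :
    (cl G r W).card ≤ (cl G r (W.erase v)).card + (q - 1).choose (r - 1) := by
  classical
  have hsplit : (cl G r W).card = ((cl G r W).filter (fun Q => v ∉ Q)).card +
      ((cl G r W).filter (fun Q => ¬ v ∉ Q)).card := by
    rw [Finset.card_filter_add_card_filter_not]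
  have h1 : ((cl G r W).filter (fun Q => v ∉ Q)).card ≤ (cl G r (W.erase v)).card := by
    apply card_le_card
    intro Q hQ
    obtain ⟨h1, h2⟩ := mem_filter.1 hQ
    obtain ⟨h3, h4⟩ := mem_filter.1 h1
    obtain ⟨h5, h6⟩ := mem_powersetCard.1 h3
    refine mem_filter.2 ⟨mem_powersetCard.2 ⟨?_, h6⟩, h4⟩
    intro a ha
    exact mem_erase.2 ⟨fun he => h2 (he ▸ ha), h5 ha⟩
  have h2 : ((cl G r W).filter (fun Q => ¬ v ∉ Q)).card ≤ (q - 1).choose (r - 1) := by
    have h3 : ((cl G r W).filter (fun Q => ¬ v ∉ Q)).card ≤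
        ((nb G v W).powersetCard (r - 1)).card := by
      refine card_le_card_of_injOn (fun Q => Q.erase v) ?_ ?_
      · intro Q hQ
        obtain ⟨h1, h2⟩ := mem_filter.1 (mem_coe.1 hQ)
        have h2 : v ∈ Q := not_not.1 h2
        obtain ⟨h3, h4⟩ := mem_filter.1 h1
        obtain ⟨h5, h6⟩ := mem_powersetCard.1 h3
        apply mem_coe.2
        refine mem_powersetCard.2 ⟨?_, ?_⟩
        · intro a ha
          obtain ⟨ha1, ha2⟩ := mem_erase.1 ha
          exact mem_filter.2 ⟨h5 ha2, h4 v h2 a ha2 ha1.symm⟩
        · rw [card_erase_of_mem h2, h6]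
      · intro Q hQ Q' hQ' he
        have h2 : v ∈ Q := not_not.1 (mem_filter.1 (mem_coe.1 hQ)).2
        have h2' : v ∈ Q' := not_not.1 (mem_filter.1 (mem_coe.1 hQ')).2
        simp only at he
        rw [← insert_erase h2, he, insert_erase h2']
    refine h3.trans ?_
    rw [card_powersetCard]
    exact Nat.choose_le_choose _ (by omega)
  omega

theorem main : S_DEG := by
  intro V _ G _ q r C X hr
  induction X using Finset.strongInduction with
  | H X ih =>
    intro hdisj hdeg
    rcases X.eq_empty_or_nonempty with rfl | hne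
    · simp
    · obtain ⟨v, hvX, hv⟩ := hdeg X (Subset.refl _) hne
      have hvC : v ∉ C := fun h => (Finset.disjoint_left.1 hdisj) hvX h
      have h1 := step G q r (X ∪ C) v hr hv
      have h2 : (X ∪ C).erase v = X.erase v ∪ C := by
        rw [Finset.erase_union_distrib, Finset.erase_eq_of_notMem hvC]
      have h3 := ih (X.erase v) (erase_ssubset hvX)
        (Finset.disjoint_of_subset_left (erase_subset _ _) hdisj)
        (fun Y hY hYne => hdeg Y (hY.trans (erase_subset _ _)) hYne)
      rw [h2] at h1
      have h4 : X.card = (X.erase v).card + 1 := by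
        rw [card_erase_add_one hvX]
      rw [h4, add_mul, one_mul]
      omega

end R367.TF.DEG
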