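import Pool.Agent.R367.TF.Stm

set_option autoImplicit false

/-! # EMB: greedy embedding of a tree -/

namespace R367.TF.EMB

open Finset R367.TF

theorem exists_inj {α β : Type} [DecidableEq α] (s : Finset α) (t : Finset β) (b : β)
    (h : s.card ≤ t.card) :
    ∃ f : α → β, (∀ a ∈ s, f a ∈ t) ∧ ∀ a ∈ s, ∀ a' ∈ s, f a = f a' → a = a' := by
  have h1 : Fintype.card s ≤ Fintype.card t := by simpa using h
  obtain ⟨e⟩ := Function.Embedding.nonempty_of_card_le h1
  refine ⟨fun a => if ha : a ∈ s then (e ⟨a, ha⟩).1 else b, ?_, ?_⟩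
  · intro a ha
    simp only [ha, dif_pos]
    exact (e ⟨a, ha⟩).2
  · intro a ha a' ha' he
    simp only [ha, ha', dif_pos] at he
    have := e.injective (Subtype.ext he)
    exact congrArg Subtype.val this

theorem mem_lf {k : ℕ} {T : SimpleGraph (Fin k)} {x y : Fin k} :
    y ∈ lf T x ↔ T.Adj x y ∧ ∀ u, T.Adj y u → u = x := by
  unfold lf
  simp

theorem mem_nl {k : ℕ} {T : SimpleGraph (Fin k)} {x y : Fin k} :
    y ∈ nl T x ↔ T.Adj x y ∧ ∃ u, T.Adj y u ∧ u ≠ x := by
  unfold nl
  simp

theorem mem_nb {V : Type} [DecidableEq V] {G : SimpleGraph V} [DecidableRel G.Adj] {v w : V}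
    {U : Finset V} : w ∈ nb G v U ↔ w ∈ U ∧ G.Adj v w := by
  unfold nb
  simp

/-- the invariant -/
structure Inv {k : ℕ} (T : SimpleGraph (Fin k)) (x : Fin k) (h : Fin k → ℕ) {V : Type}
    (G : SimpleGraph V) (C : Finset V) (z : V) (W A : Finset (Fin k)) (φ : Fin k → V) : Prop where
  nlA : nl T x ⊆ A
  AW : A ⊆ W
  inj : ∀ a ∈ A, ∀ b ∈ A, φ a = φ b → a = b
  memC : ∀ a ∈ A, φ a ∈ C
  adjz : ∀ a ∈ nl T x, G.Adj z (φ a)
  adj : ∀ a ∈ A, ∀ b ∈ A, T.Adj a b → G.Adj (φ a) (φ b)
  ord : ∀ a ∈ A, a ∉ nl T x → ∀ w ∈ W, w ∉ A → h a ≤ h w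

theorem main : S_TREE → S_EMB := by
  intro hTree k T x hT V _ G _ U C z hCU hzC hzU hnl hC
  classical
  obtain ⟨h, p, hx, hp⟩ := hTree k T x hT
  set l := (lf T x).card with hl
  set W : Finset (Fin k) := univ.filter (fun w => w ≠ x ∧ w ∉ lf T x) with hW
  have memW : ∀ w, w ∈ W ↔ w ≠ x ∧ w ∉ lf T x := by
    intro w
    simp [hW]
  have hWcard : W.card = k - 1 - l := by
    have h1 : W = (univ.erase x) \ lf T x := by
      ext w
      simp [hW]
    have h2 : lf T x ⊆ univ.erase x := by
      intro y hy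
      rw [mem_lf] at hy
      rw [mem_erase]
      exact ⟨hy.1.ne', mem_univ _⟩
    rw [h1, card_sdiff_of_subset h2, card_erase_of_mem (mem_univ _), card_univ, Fintype.card_fin]
  have hlk : l ≤ k - 1 := by
    have h2 : lf T x ⊆ univ.erase x := by
      intro y hy
      rw [mem_lf] at hy
      rw [mem_erase]
      exact ⟨hy.1.ne', mem_univ _⟩
    have := card_le_card h2
    rwa [card_erase_of_mem (mem_univ _), card_univ, Fintype.card_fin] at this
  have hnb1 : ∀ a, T.Adj x a → h a = 1 := by
    intro a ha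
    obtain ⟨h1, h2, h3⟩ := hp a ha.ne'
    rcases h3 x ha.symm with h4 | h4
    · rw [← h4, hx] at h2
      omega
    · omega
  have hnlW : nl T x ⊆ W := by
    intro a ha
    rw [mem_nl] at ha
    rw [memW]
    refine ⟨ha.1.ne', ?_⟩
    intro ha'
    rw [mem_lf] at ha'
    obtain ⟨u, hu, hux⟩ := ha.2
    exact hux (ha'.2 u hu)
  -- initial map
  obtain ⟨φ₀, hφ₀, hφ₀i⟩ := exists_inj (nl T x) (nb G z C) z hnl
  have hinit : Inv T x h G C z W (nl T x) φ₀ := by
    refine ⟨Subset.refl _, hnlW, hφ₀i, ?_, ?_, ?_, ?_⟩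
    · intro a ha
      exact (mem_nb.1 (hφ₀ a ha)).1
    · intro a ha
      exact (mem_nb.1 (hφ₀ a ha)).2
    · intro a ha b hb hab
      exfalso
      rw [mem_nl] at ha hb
      have h1 := hnb1 a ha.1
      have h2 := hnb1 b hb.1
      obtain ⟨h3, h4, h5⟩ := hp a ha.1.ne'
      rcases h5 b hab with h6 | h6
      · rw [← h6] at h4
        omega
      · omega
    · intro a ha hna
      exact absurd ha hna
  -- the step
  have hstep : ∀ (A : Finset (Fin k)) (φ : Fin k → V), Inv T x h G C z W A φ → A ≠ W →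
      ∃ (w : Fin k) (φ' : Fin k → V), w ∈ W ∧ w ∉ A ∧ Inv T x h G C z W (insert w A) φ' := by
    intro A φ hI hne
    have hne' : (W \ A).Nonempty := by
      rw [nonempty_iff_ne_empty]
      intro he
      rw [sdiff_eq_empty_iff_subset] at he
      exact hne (Subset.antisymm hI.AW he)
    obtain ⟨w, hwWA, hwmin⟩ := exists_min_image (W \ A) h hne'
    rw [mem_sdiff] at hwWA
    obtain ⟨hwW, hwA⟩ := hwWA
    have hw' := (memW w).1 hwW
    obtain ⟨hp1, hp2, hp3⟩ := hp w hw'.1
    have hpx : p w ≠ x := by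
      intro he
      rw [he] at hp1
      have : w ∈ nl T x := by
        rw [mem_nl]
        refine ⟨hp1.symm, ?_⟩
        by_contra hcon
        push Not at hcon
        exact hw'.2 (mem_lf.2 ⟨hp1.symm, hcon⟩)
      exact hwA (hI.nlA this)
    have hpl : p w ∉ lf T x := by
      intro hpl
      rw [mem_lf] at hpl
      exact hw'.1 (hpl.2 w hp1.symm)
    have hpW : p w ∈ W := (memW _).2 ⟨hpx, hpl⟩
    have hpA : p w ∈ A := by
      by_contra hcon
      have := hwmin (p w) (mem_sdiff.2 ⟨hpW, hcon⟩)
      omega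
    have hvC : φ (p w) ∈ C := hI.memC _ hpA
    have hAcard : A.card + 1 ≤ W.card := by
      have h1 : insert w A ⊆ W := insert_subset hwW hI.AW
      have h2 := card_le_card h1
      rwa [card_insert_of_notMem hwA] at h2
    have hfree : ∃ y ∈ nb G (φ (p w)) C, y ∉ A.image φ := by
      by_contra hcon
      push Not at hcon
      have h1 : nb G (φ (p w)) C ⊆ (A.image φ).erase (φ (p w)) := by
        intro y hy
        rw [mem_erase]
        refine ⟨?_, hcon y hy⟩
        have := (mem_nb.1 hy).2
        exact this.ne'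
      have h2 := card_le_card h1
      have h3 : φ (p w) ∈ A.image φ := mem_image_of_mem _ hpA
      rw [card_erase_of_mem h3] at h2
      have h4 : (A.image φ).card ≤ A.card := card_image_le
      have h5 := hC _ hvC
      have h6 : 0 < A.card := card_pos.2 ⟨_, hpA⟩
      rw [hWcard] at hAcard
      omega
    obtain ⟨y, hy, hyA⟩ := hfree
    have hyC := (mem_nb.1 hy).1
    have hyadj := (mem_nb.1 hy).2
    have hupd : ∀ a ∈ A, Function.update φ w y a = φ a := by
      intro a ha
      rw [Function.update_of_ne]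
      rintro rfl
      exact hwA ha
    have hupw : Function.update φ w y w = y := Function.update_self _ _ _
    have hyne : ∀ a ∈ A, φ a ≠ y := by
      intro a ha he
      exact hyA (he ▸ mem_image_of_mem _ ha)
    have hadjw : ∀ b ∈ A, T.Adj w b → G.Adj y (φ b) := by
      intro b hb hwb
      rcases hp3 b hwb with h1 | h1
      · rw [h1]
        exact hyadj.symm
      · exfalso
        by_cases hbn : b ∈ nl T x
        · have := hnb1 b (mem_nl.1 hbn).1
          omega
        · have := hI.ord b hb hbn w hwW hwA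
          omega
    refine ⟨w, Function.update φ w y, hwW, hwA, ?_, ?_, ?_, ?_, ?_, ?_, ?_⟩
    · exact hI.nlA.trans (subset_insert _ _)
    · exact insert_subset hwW hI.AW
    · intro a ha b hb he
      rw [mem_insert] at ha hb
      rcases ha with rfl | ha <;> rcases hb with rfl | hb
      · rfl
      · rw [hupw, hupd b hb] at he
        exact absurd he.symm (hyne b hb)
      · rw [hupw, hupd a ha] at he
        exact absurd he (hyne a ha)
      · rw [hupd a ha, hupd b hb] at he
        exact hI.inj a ha b hb he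
    · intro a ha
      rw [mem_insert] at ha
      rcases ha with rfl | ha
      · rw [hupw]
        exact hyC
      · rw [hupd a ha]
        exact hI.memC a ha
    · intro a ha
      rw [hupd a (hI.nlA ha)]
      exact hI.adjz a ha
    · intro a ha b hb hab
      rw [mem_insert] at ha hb
      rcases ha with rfl | ha <;> rcases hb with rfl | hb
      · exact absurd rfl hab.ne
      · rw [hupw, hupd b hb]
        exact hadjw b hb hab
      · rw [hupw, hupd a ha]
        exact (hadjw a ha hab.symm).symm
      · rw [hupd a ha, hupd b hb]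
        exact hI.adj a ha b hb hab
    · intro a ha hna w' hw'W hw'A
      rw [mem_insert, not_or] at hw'A
      rw [mem_insert] at ha
      rcases ha with rfl | ha
      · exact hwmin w' (mem_sdiff.2 ⟨hw'W, hw'A.2⟩)
      · exact hI.ord a ha hna w' hw'W hw'A.2
  -- iterate
  have hall : ∀ (n : ℕ) (A : Finset (Fin k)) (φ : Fin k → V), Inv T x h G C z W A φ →
      W.card - A.card = n → ∃ φ' : Fin k → V, Inv T x h G C z W W φ' := by
    intro n
    induction n with
    | zero =>
      intro A φ hI hc
      have h1 := card_le_card hI.AW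
      have h2 : A = W := eq_of_subset_of_card_le hI.AW (by omega)
      subst h2
      exact ⟨φ, hI⟩
    | succ n ih =>
      intro A φ hI hc
      have hne : A ≠ W := by
        rintro rfl
        omega
      obtain ⟨w, φ', hwW, hwA, hI'⟩ := hstep A φ hI hne
      refine ih (insert w A) φ' hI' ?_
      rw [card_insert_of_notMem hwA]
      omega
  obtain ⟨φ, hI⟩ := hall _ _ _ hinit rfl
  -- the leaves
  have hleaf : (lf T x).card ≤ (nb G z U \ W.image φ).card := by
    have h1 : (nb G z U).card - (W.image φ).card ≤ (nb G z U \ W.image φ).card :=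
      le_card_sdiff _ _
    have h2 : (W.image φ).card ≤ W.card := card_image_le
    rw [hWcard] at h2
    omega
  obtain ⟨ψ, hψ, hψi⟩ := exists_inj (lf T x) (nb G z U \ W.image φ) z hleaf
  have hψ1 : ∀ a ∈ lf T x, G.Adj z (ψ a) := by
    intro a ha
    exact (mem_nb.1 (mem_sdiff.1 (hψ a ha)).1).2
  have hψ2 : ∀ a ∈ lf T x, ψ a ∉ W.image φ := by
    intro a ha
    exact (mem_sdiff.1 (hψ a ha)).2
  have hxl : x ∉ lf T x := by
    intro hx'
    exact absurd rfl (mem_lf.1 hx').1.ne
  let Φ : Fin k → V := fun a => if a = x then z else if a ∈ lf T x then ψ a else φ a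
  have hΦx : Φ x = z := by simp [Φ]
  have hΦl : ∀ a ∈ lf T x, Φ a = ψ a := by
    intro a ha
    have : a ≠ x := by
      rintro rfl
      exact hxl ha
    simp [Φ, this, ha]
  have hΦW : ∀ a ∈ W, Φ a = φ a := by
    intro a ha
    have := (memW a).1 ha
    simp [Φ, this.1, this.2]
  have htri : ∀ a, a = x ∨ a ∈ lf T x ∨ a ∈ W := by
    intro a
    by_cases h1 : a = x
    · exact Or.inl h1
    · by_cases h2 : a ∈ lf T x
      · exact Or.inr (Or.inl h2)
      · exact Or.inr (Or.inr ((memW a).2 ⟨h1, h2⟩))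
  refine ⟨Φ, ?_, ?_⟩
  · intro a b hab
    rcases htri a with rfl | ha | ha <;> rcases htri b with hb | hb | hb
    · exact hb.symm
    · rw [hΦx, hΦl b hb] at hab
      exact absurd hab (hψ1 b hb).ne
    · rw [hΦx, hΦW b hb] at hab
      exact absurd (hab ▸ hI.memC b hb) hzC
    · subst hb
      rw [hΦx, hΦl a ha] at hab
      exact absurd hab.symm (hψ1 a ha).ne
    · rw [hΦl a ha, hΦl b hb] at hab
      exact hψi a ha b hb hab
    · rw [hΦl a ha, hΦW b hb] at hab
      exact absurd (hab ▸ mem_image_of_mem φ hb) (hψ2 a ha)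
    · subst hb
      rw [hΦx, hΦW a ha] at hab
      exact absurd (hab ▸ hI.memC a ha) hzC
    · rw [hΦl b hb, hΦW a ha] at hab
      exact absurd (hab ▸ mem_image_of_mem φ ha) (hψ2 b hb)
    · rw [hΦW a ha, hΦW b hb] at hab
      exact hI.inj a ha b hb hab
  · have hxadj : ∀ b, T.Adj x b → G.Adj (Φ x) (Φ b) := by
      intro b hb
      rw [hΦx]
      rcases htri b with h1 | h1 | h1
      · exact absurd h1.symm hb.ne
      · rw [hΦl b h1]
        exact hψ1 b h1
      · rw [hΦW b h1]
        apply hI.adjz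
        rw [mem_nl]
        refine ⟨hb, ?_⟩
        by_contra hcon
        push Not at hcon
        exact ((memW b).1 h1).2 (mem_lf.2 ⟨hb, hcon⟩)
    intro a b hab
    by_cases hax : a = x
    · subst hax
      exact hxadj b hab
    · by_cases hbx : b = x
      · subst hbx
        exact (hxadj a hab.symm).symm
      · have haW : a ∈ W := by
          rw [memW]
          refine ⟨hax, fun hal => ?_⟩
          exact hbx ((mem_lf.1 hal).2 b hab)
        have hbW : b ∈ W := by
          rw [memW]
          refine ⟨hbx, fun hbl => ?_⟩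
          exact hax ((mem_lf.1 hbl).2 a hab.symm)
        rw [hΦW a haW, hΦW b hbW]
        exact hI.adj a haW b hbW hab

end R367.TF.EMB
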