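import Mathlib

set_option autoImplicit false

/-! # Statements of the pieces of project TF (cliques in graphs without a leaf-heavy tree) -/

namespace R367.TF

open Finset

/-- `a K_K ∪ K_b` has `f K r n` cliques with `r` vertices, `n = a K + b` -/
def f (K r n : ℕ) : ℕ := n / K * K.choose r + (n % K).choose r

/-- neighbours of `v` in `U` -/
def nb {V : Type} [DecidableEq V] (G : SimpleGraph V) [DecidableRel G.Adj] (v : V)
    (U : Finset V) : Finset V := U.filter (fun w => G.Adj v w)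

/-- the cliques with `r` vertices inside `S` -/
def cl {V : Type} [DecidableEq V] (G : SimpleGraph V) [DecidableRel G.Adj] (r : ℕ)
    (S : Finset V) : Finset (Finset V) :=
  (S.powersetCard r).filter (fun Q => ∀ x ∈ Q, ∀ y ∈ Q, x ≠ y → G.Adj x y)

/-- leaves adjacent to `x` -/
noncomputable def lf {k : ℕ} (T : SimpleGraph (Fin k)) (x : Fin k) : Finset (Fin k) := by
  classical exact univ.filter (fun y => T.Adj x y ∧ ∀ u, T.Adj y u → u = x)

/-- non-leaves adjacent to `x` -/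
noncomputable def nl {k : ℕ} (T : SimpleGraph (Fin k)) (x : Fin k) : Finset (Fin k) := by
  classical exact univ.filter (fun y => T.Adj x y ∧ ∃ u, T.Adj y u ∧ u ≠ x)

/-- disjoint blocks of `m` consecutive numbers -/
def blk (n m : ℕ) : SimpleGraph (Fin n) where
  Adj x y := x ≠ y ∧ x.1 / m = y.1 / m
  symm := ⟨fun x y h => ⟨h.1.symm, h.2.symm⟩⟩
  loopless := ⟨fun x h => h.1 rfl⟩

/-- superadditivity -/
def S_SUP : Prop := ∀ K r a b : ℕ, 1 ≤ K → 1 ≤ r → f K r a + f K r b ≤ f K r (a + b)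

def S_NUM1 : Prop := ∀ K m r s : ℕ, 3 ≤ r → 2 * m + 1 ≤ K → K ≤ s →
  s * m.choose (r - 1) ≤ f K r s

def S_NUM2 : Prop := ∀ m r s : ℕ, 3 ≤ r → 1 ≤ s → 3 * m.choose 2 ≤ (s - 1).choose 2 →
  s * m.choose (r - 1) ≤ s.choose r

/-- Chase's lemma for all `r ≥ 3` -/
def S_LOC : Prop := ∀ (V : Type) [DecidableEq V] (G : SimpleGraph V) [DecidableRel G.Adj]
  (r : ℕ) (U : Finset V), 3 ≤ r → U.Nonempty →
  ∃ z ∈ U, (cl G r U).card ≤
    (cl G r (U \ insert z (nb G z U))).card + ((nb G z U).card + 1).choose r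

/-- Chase's theorem for all `r ≥ 3` -/
def S_CHASE : Prop := ∀ (V : Type) [DecidableEq V] (G : SimpleGraph V) [DecidableRel G.Adj]
  (r K : ℕ) (U : Finset V), 3 ≤ r → 1 ≤ K → (∀ v ∈ U, (nb G v U).card + 1 ≤ K) →
  (cl G r U).card ≤ f K r U.card

def S_CORE : Prop := ∀ (V : Type) [DecidableEq V] (G : SimpleGraph V) [DecidableRel G.Adj]
  (q : ℕ) (U : Finset V), ∃ C ⊆ U, (∀ v ∈ C, q ≤ (nb G v C).card) ∧
    ∀ X ⊆ U \ C, X.Nonempty → ∃ v ∈ X, (nb G v (X ∪ C)).card < q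

def S_DEG : Prop := ∀ (V : Type) [DecidableEq V] (G : SimpleGraph V) [DecidableRel G.Adj]
  (q r : ℕ) (C X : Finset V), 1 ≤ r → Disjoint X C →
  (∀ Y ⊆ X, Y.Nonempty → ∃ v ∈ Y, (nb G v (Y ∪ C)).card < q) →
  (cl G r (X ∪ C)).card ≤ (cl G r C).card + X.card * (q - 1).choose (r - 1)

/-- a tree rooted at `x`: depth `h` and parent `p` -/
def S_TREE : Prop := ∀ (k : ℕ) (T : SimpleGraph (Fin k)) (x : Fin k), T.IsTree →
  ∃ (h : Fin k → ℕ) (p : Fin k → Fin k), h x = 0 ∧ ∀ w, w ≠ x →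
    T.Adj w (p w) ∧ h (p w) + 1 = h w ∧ ∀ u, T.Adj w u → u = p w ∨ h u = h w + 1

/-- greedy embedding -/
def S_EMB : Prop := ∀ (k : ℕ) (T : SimpleGraph (Fin k)) (x : Fin k), T.IsTree →
  ∀ (V : Type) [DecidableEq V] (G : SimpleGraph V) [DecidableRel G.Adj]
  (U C : Finset V) (z : V), C ⊆ U → z ∉ C → k - 1 ≤ (nb G z U).card →
  (nl T x).card ≤ (nb G z C).card →
  (∀ v ∈ C, k - 2 - (lf T x).card ≤ (nb G v C).card) →
  ∃ φ : Fin k → V, Function.Injective φ ∧ ∀ a b, T.Adj a b → G.Adj (φ a) (φ b)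

/-- lower bound -/
def S_LOW : Prop := ∀ n K r : ℕ, 1 ≤ K → 1 ≤ r →
  f K r n ≤ {s : Finset (Fin n) | (blk n K).IsNClique r s}.ncard

/-! second theorem: large cliques, all trees -/

/-- common neighbours of `Q` in `U` -/
def cn {V : Type} [DecidableEq V] (G : SimpleGraph V) [DecidableRel G.Adj] (Q U : Finset V) :
    Finset V := U.filter (fun w => ∀ v ∈ Q, G.Adj v w)

/-- `K_{k-1}` with one more edge contains every tree with `k` vertices -/
def S_OUT : Prop := ∀ (k : ℕ) (T : SimpleGraph (Fin k)), 2 ≤ k → T.IsTree →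
  ∀ (V : Type) [DecidableEq V] (G : SimpleGraph V) [DecidableRel G.Adj]
  (Q : Finset V) (u w : V), Q.card = k - 1 → (∀ x ∈ Q, ∀ y ∈ Q, x ≠ y → G.Adj x y) →
  u ∈ Q → w ∉ Q → G.Adj u w →
  ∃ φ : Fin k → V, Function.Injective φ ∧ ∀ a b, T.Adj a b → G.Adj (φ a) (φ b)

/-- a clique on `S.card` vertices with `k - S.card` common neighbours contains every graph
with `k` vertices and vertex cover `S` -/
def S_COV : Prop := ∀ (k : ℕ) (T : SimpleGraph (Fin k)) (S : Finset (Fin k)),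
  (∀ a b, T.Adj a b → a ∈ S ∨ b ∈ S) →
  ∀ (V : Type) [DecidableEq V] (G : SimpleGraph V) [DecidableRel G.Adj]
  (Q U : Finset V), Q.card = S.card → (∀ x ∈ Q, ∀ y ∈ Q, x ≠ y → G.Adj x y) →
  k - S.card ≤ (cn G Q U).card →
  ∃ φ : Fin k → V, Function.Injective φ ∧ ∀ a b, T.Adj a b → G.Adj (φ a) (φ b)

/-- double counting of the pairs (`j`-subset of an `r`-clique) -/
def S_CNT : Prop := ∀ (V : Type) [DecidableEq V] (G : SimpleGraph V) [DecidableRel G.Adj]
  (j t : ℕ) (U : Finset V),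
  (j + t).choose j * (cl G (j + t) U).card ≤ ∑ Q ∈ cl G j U, (cl G t (cn G Q U)).card

/-- a set with at most `M + 2` elements which is not a clique with `M + 2` elements has at most
`C(M+2,t+2) - C(M,t)` cliques with `t + 2` elements -/
def S_MISS : Prop := ∀ (V : Type) [DecidableEq V] (G : SimpleGraph V) [DecidableRel G.Adj]
  (M t : ℕ) (N : Finset V), N.card ≤ M + 2 →
  (N.card = M + 2 → ∃ x ∈ N, ∃ y ∈ N, x ≠ y ∧ ¬ G.Adj x y) →
  (cl G (t + 2) N).card + M.choose t ≤ (M + 2).choose (t + 2)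

end R367.TF
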