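import Mathlib
import Pool.Agent.R367.TF.Stm

set_option autoImplicit false

/-! # Piece LOC of project TF: Chase's local lemma for r-cliques (helper11) -/

namespace R367.TF.LOC

open Finset

/-- moving a sum over pairs (vertex, `r`-set not containing it) to `(r+1)`-sets -/
theorem sum_swap {V : Type} [DecidableEq V] (r : ℕ) (U : Finset V) (g : V → Finset V → ℕ) :
    ∑ z ∈ U, ∑ Q ∈ (U.powersetCard r).filter (fun Q => z ∉ Q), g z Q =
      ∑ S ∈ U.powersetCard (r + 1), ∑ z ∈ S, g z (S.erase z) := by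
  classical
  rw [Finset.sum_sigma', Finset.sum_sigma']
  refine Finset.sum_bij' (fun p _ => ⟨insert p.1 p.2, p.1⟩) (fun p _ => ⟨p.2, p.1.erase p.2⟩)
    ?_ ?_ ?_ ?_ ?_
  · rintro ⟨z, Q⟩ h
    simp only [Finset.mem_sigma, Finset.mem_filter, Finset.mem_powersetCard] at h ⊢
    obtain ⟨hz, ⟨hQ, hc⟩, hn⟩ := h
    refine ⟨⟨Finset.insert_subset hz hQ, ?_⟩, Finset.mem_insert_self _ _⟩
    rw [Finset.card_insert_of_notMem hn, hc]
  · rintro ⟨S, z⟩ h
    simp only [Finset.mem_sigma, Finset.mem_filter, Finset.mem_powersetCard] at h ⊢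
    obtain ⟨⟨hS, hc⟩, hz⟩ := h
    refine ⟨hS hz, ⟨(Finset.erase_subset _ _).trans hS, ?_⟩, Finset.notMem_erase _ _⟩
    rw [Finset.card_erase_of_mem hz, hc]; simp
  · rintro ⟨z, Q⟩ h
    simp only [Finset.mem_sigma, Finset.mem_filter, Finset.mem_powersetCard] at h ⊢
    simp [Finset.erase_insert h.2.2]
  · rintro ⟨S, z⟩ h
    simp only [Finset.mem_sigma, Finset.mem_filter, Finset.mem_powersetCard] at h ⊢
    simp [Finset.insert_erase h.2]
  · rintro ⟨z, Q⟩ h
    simp only [Finset.mem_sigma, Finset.mem_filter, Finset.mem_powersetCard] at h ⊢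
    simp [Finset.erase_insert h.2.2]

/-- the local comparison on an `(r+1)`-set -/
theorem local_le {V : Type} [DecidableEq V] (G : SimpleGraph V) [DecidableRel G.Adj] (r : ℕ)
    (hr : 3 ≤ r) (S : Finset V) (hS : S.card = r + 1) :
    (S.filter (fun z => (∀ x ∈ S.erase z, ∀ y ∈ S.erase z, x ≠ y → G.Adj x y) ∧
      ∃ y ∈ S.erase z, G.Adj z y)).card ≤
    (S.filter (fun z => ∀ y ∈ S.erase z, G.Adj z y)).card := by
  classical
  set L := S.filter (fun z => (∀ x ∈ S.erase z, ∀ y ∈ S.erase z, x ≠ y → G.Adj x y) ∧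
      ∃ y ∈ S.erase z, G.Adj z y) with hL
  set R := S.filter (fun z => ∀ y ∈ S.erase z, G.Adj z y) with hR
  rcases L.eq_empty_or_nonempty with h0 | ⟨z, hz⟩
  · rw [h0]; simp
  have hz' := hz
  rw [hL, Finset.mem_filter] at hz'
  obtain ⟨hzS, hcl, y1, hy1, hzy1⟩ := hz'
  set D := (S.erase z).filter (fun y => G.Adj z y) with hD
  have hDR : D ⊆ R := by
    intro y hy
    rw [hD, Finset.mem_filter] at hy
    rw [hR, Finset.mem_filter]
    refine ⟨Finset.mem_of_mem_erase hy.1, ?_⟩
    intro w hw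
    rw [Finset.mem_erase] at hw
    by_cases hwz : w = z
    · rw [hwz]; exact hy.2.symm
    · exact hcl y hy.1 w (Finset.mem_erase.2 ⟨hwz, hw.2⟩) (Ne.symm hw.1)
  by_cases hall : ∀ y ∈ S.erase z, G.Adj z y
  · have hRS : R = S := by
      rw [hR, Finset.filter_eq_self]
      intro x hx y hy
      rw [Finset.mem_erase] at hy
      by_cases hxz : x = z
      · subst hxz
        exact hall y (Finset.mem_erase.2 hy)
      · by_cases hyz : y = z
        · subst hyz
          exact (hall x (Finset.mem_erase.2 ⟨hxz, hx⟩)).symm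
        · exact hcl x (Finset.mem_erase.2 ⟨hxz, hx⟩) y (Finset.mem_erase.2 ⟨hyz, hy.2⟩)
            (Ne.symm hy.1)
    rw [hRS]
    exact Finset.card_le_card (Finset.filter_subset _ _)
  · push Not at hall
    obtain ⟨y0, hy0, hny0⟩ := hall
    have hsub : ∀ z' ∈ L, z' ≠ z → z' = y0 := by
      intro z' hz' hne
      by_contra hne0
      rw [hL, Finset.mem_filter] at hz'
      have h1 := hz'.2.1 z (Finset.mem_erase.2 ⟨Ne.symm hne, hzS⟩) y0
        (Finset.mem_erase.2 ⟨Ne.symm hne0, Finset.mem_of_mem_erase hy0⟩)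
        (Ne.symm (Finset.ne_of_mem_erase hy0))
      exact hny0 h1
    by_cases hyL : y0 ∈ L
    · have hL2 : L.card ≤ 2 := by
        have : L ⊆ {z, y0} := by
          intro z' hz'
          by_cases h : z' = z
          · simp [h]
          · simp [hsub z' hz' h]
        exact (Finset.card_le_card this).trans Finset.card_le_two
      have hyL' := hyL
      rw [hL, Finset.mem_filter] at hyL'
      have hDD : (S.erase z).erase y0 ⊆ D := by
        intro y hy
        rw [Finset.mem_erase] at hy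
        rw [hD, Finset.mem_filter]
        refine ⟨hy.2, ?_⟩
        exact hyL'.2.1 z (Finset.mem_erase.2 ⟨Ne.symm (Finset.ne_of_mem_erase hy0), hzS⟩) y
          (Finset.mem_erase.2 ⟨hy.1, Finset.mem_of_mem_erase hy.2⟩)
          (Ne.symm (Finset.ne_of_mem_erase hy.2))
      have h1 := Finset.card_le_card (hDD.trans hDR)
      rw [Finset.card_erase_of_mem hy0, Finset.card_erase_of_mem hzS, hS] at h1
      omega
    · have hL1 : L.card ≤ 1 := by
        rw [Finset.card_le_one]
        intro a ha b hb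
        have haz : a = z := by
          by_contra h
          exact hyL (hsub a ha h ▸ ha)
        have hbz : b = z := by
          by_contra h
          exact hyL (hsub b hb h ▸ hb)
        rw [haz, hbz]
      have hy1D : y1 ∈ R := hDR (Finset.mem_filter.2 ⟨hy1, hzy1⟩)
      have : 1 ≤ R.card := Finset.card_pos.2 ⟨y1, hy1D⟩
      omega

theorem main : S_LOC := by
  intro V _ G _ r U hr hU
  classical
  set N : V → Finset V := fun z => insert z (nb G z U) with hN
  have hNc : ∀ z, (N z).card = (nb G z U).card + 1 := by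
    intro z
    rw [hN]
    simp only
    rw [Finset.card_insert_of_notMem]
    simp [nb]
  -- number of cliques meeting `N z`
  set t : V → ℕ := fun z => ((cl G r U).filter (fun Q => ¬ Disjoint Q (N z))).card with ht
  have hsplit : ∀ z, (cl G r U).card = (cl G r (U \ N z)).card + t z := by
    intro z
    rw [← Finset.card_filter_add_card_filter_not (s := cl G r U) (p := fun Q => Disjoint Q (N z))]
    congr 1
    congr 1
    ext Q
    simp only [cl, Finset.mem_filter, Finset.mem_powersetCard, Finset.subset_sdiff]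
    tauto
  -- inside / outside split of t
  set tin : V → ℕ := fun z => ((cl G r U).filter (fun Q => z ∈ Q)).card with htin
  set tout : V → ℕ := fun z => (((U.powersetCard r).filter (fun Q => z ∉ Q)).filter
    (fun Q => (∀ x ∈ Q, ∀ y ∈ Q, x ≠ y → G.Adj x y) ∧ ∃ y ∈ Q, G.Adj z y)).card with htout
  have ht_le : ∀ z ∈ U, t z ≤ tin z + tout z := by
    intro z hz
    rw [ht, htin, htout]
    simp only
    refine (Finset.card_le_card ?_).trans (Finset.card_union_le _ _)
    intro Q hQ
    simp only [Finset.mem_filter, Finset.mem_union, cl, Finset.mem_powersetCard] at hQ ⊢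
    obtain ⟨⟨⟨hQU, hQc⟩, hQcl⟩, hmeet⟩ := hQ
    by_cases hzQ : z ∈ Q
    · left; exact ⟨⟨⟨hQU, hQc⟩, hQcl⟩, hzQ⟩
    · right
      refine ⟨⟨⟨hQU, hQc⟩, hzQ⟩, hQcl, ?_⟩
      rw [Finset.not_disjoint_iff] at hmeet
      obtain ⟨y, hyQ, hyN⟩ := hmeet
      rw [hN] at hyN
      simp only [nb, Finset.mem_insert, Finset.mem_filter] at hyN
      rcases hyN with rfl | h
      · exact absurd hyQ hzQ
      · exact ⟨y, hyQ, h.2⟩
  set sin' : V → ℕ := fun z => (((N z).powersetCard r).filter (fun Q => z ∈ Q)).card with hsin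
  set sout : V → ℕ := fun z => (((U.powersetCard r).filter (fun Q => z ∉ Q)).filter
    (fun Q => ∀ y ∈ Q, G.Adj z y)).card with hsout
  have hin : ∀ z ∈ U, tin z ≤ sin' z := by
    intro z hz
    rw [htin, hsin]
    simp only
    apply Finset.card_le_card
    intro Q hQ
    simp only [Finset.mem_filter, cl, Finset.mem_powersetCard] at hQ ⊢
    obtain ⟨⟨⟨hQU, hQc⟩, hQcl⟩, hzQ⟩ := hQ
    refine ⟨⟨?_, hQc⟩, hzQ⟩
    intro y hy
    rw [hN]
    simp only [nb, Finset.mem_insert, Finset.mem_filter]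
    by_cases hyz : y = z
    · left; exact hyz
    · right; exact ⟨hQU hy, hQcl z hzQ y hy (Ne.symm hyz)⟩
  have hS : ∀ z ∈ U, sin' z + sout z ≤ ((nb G z U).card + 1).choose r := by
    intro z hz
    rw [← hNc z, ← Finset.card_powersetCard,
      ← Finset.card_filter_add_card_filter_not (s := (N z).powersetCard r) (p := fun Q => z ∈ Q)]
    rw [hsin, hsout]
    simp only
    gcongr
    intro Q hQ
    simp only [Finset.mem_filter, Finset.mem_powersetCard] at hQ ⊢
    obtain ⟨⟨⟨hQU, hQc⟩, hzQ⟩, hadj⟩ := hQ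
    refine ⟨⟨?_, hQc⟩, hzQ⟩
    intro y hy
    rw [hN]
    simp only [nb, Finset.mem_insert, Finset.mem_filter]
    right
    exact ⟨hQU hy, hadj y hy⟩
  have hout : ∑ z ∈ U, tout z ≤ ∑ z ∈ U, sout z := by
    have e1 : ∑ z ∈ U, tout z = ∑ S ∈ U.powersetCard (r + 1), ∑ z ∈ S,
        (if (∀ x ∈ S.erase z, ∀ y ∈ S.erase z, x ≠ y → G.Adj x y) ∧
          ∃ y ∈ S.erase z, G.Adj z y then 1 else 0) := by
      rw [← sum_swap r U (fun z Q => if (∀ x ∈ Q, ∀ y ∈ Q, x ≠ y → G.Adj x y) ∧
          ∃ y ∈ Q, G.Adj z y then 1 else 0)]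
      apply Finset.sum_congr rfl
      intro z hz
      rw [htout]
      simp only
      rw [Finset.card_filter]
    have e2 : ∑ z ∈ U, sout z = ∑ S ∈ U.powersetCard (r + 1), ∑ z ∈ S,
        (if (∀ y ∈ S.erase z, G.Adj z y) then 1 else 0) := by
      rw [← sum_swap r U (fun z Q => if (∀ y ∈ Q, G.Adj z y) then 1 else 0)]
      apply Finset.sum_congr rfl
      intro z hz
      rw [hsout]
      simp only
      rw [Finset.card_filter]
    rw [e1, e2]
    apply Finset.sum_le_sum
    intro S hS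
    rw [Finset.mem_powersetCard] at hS
    rw [← Finset.card_filter, ← Finset.card_filter]
    exact local_le G r hr S hS.2
  have htot : ∑ z ∈ U, t z ≤ ∑ z ∈ U, ((nb G z U).card + 1).choose r := by
    calc ∑ z ∈ U, t z ≤ ∑ z ∈ U, (tin z + tout z) := Finset.sum_le_sum ht_le
      _ = ∑ z ∈ U, tin z + ∑ z ∈ U, tout z := Finset.sum_add_distrib
      _ ≤ ∑ z ∈ U, sin' z + ∑ z ∈ U, sout z := by
          gcongr with z hz
          exact hin z hz
      _ = ∑ z ∈ U, (sin' z + sout z) := Finset.sum_add_distrib.symm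
      _ ≤ _ := Finset.sum_le_sum hS
  obtain ⟨z, hz, hle⟩ := Finset.exists_le_of_sum_le hU htot
  refine ⟨z, hz, ?_⟩
  rw [hsplit z]
  gcongr

end R367.TF.LOC
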