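import Pool.Agent.R367.TF.Stm

set_option autoImplicit false

/-! # Piece LOW of project TF: the number of cliques of disjoint blocks -/

namespace R367.TF.LOW

open Finset

/-- the block with number `c` -/
def bk (n K c : ℕ) : Finset (Fin n) := univ.filter (fun x : Fin n => x.1 / K = c)

lemma bk_card (n K c sz : ℕ) (hK : 1 ≤ K) (h : c * K + sz ≤ n) (hsz : sz ≤ K) :
    sz ≤ (bk n K c).card := by
  have h1 : (univ : Finset (Fin sz)).card ≤ (bk n K c).card := by
    apply Finset.card_le_card_of_injOn
      (fun j : Fin sz => (⟨c * K + j.1, by have := j.2; omega⟩ : Fin n))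
    · intro j _
      rw [mem_coe, bk, mem_filter]
      refine ⟨mem_univ _, ?_⟩
      show (c * K + j.1) / K = c
      rw [Nat.add_comm, Nat.add_mul_div_right _ _ (by omega), Nat.div_eq_of_lt (by
        have := j.2; omega)]
      omega
    · intro j _ j' _ hjj
      have h2 : c * K + j.1 = c * K + j'.1 := congrArg Fin.val hjj
      apply Fin.ext
      omega
  simpa using h1

theorem main : S_LOW := by
  intro n K r hK hr
  classical
  set A : ℕ → Finset (Finset (Fin n)) := fun c => (bk n K c).powersetCard r with hA
  have hdisj : ∀ c ∈ range (n / K + 1), ∀ c' ∈ range (n / K + 1), c ≠ c' →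
      Disjoint (A c) (A c') := by
    intro c _ c' _ hcc
    rw [Finset.disjoint_left]
    intro s hs hs'
    rw [hA, mem_powersetCard] at hs hs'
    have hne : s.Nonempty := by
      rw [← Finset.card_pos, hs.2]
      omega
    obtain ⟨x, hx⟩ := hne
    have h1 := hs.1 hx
    have h2 := hs'.1 hx
    rw [bk, mem_filter] at h1 h2
    exact hcc (h1.2.symm.trans h2.2)
  have hcard : ((range (n / K + 1)).biUnion A).card = ∑ c ∈ range (n / K + 1), (A c).card :=
    Finset.card_biUnion hdisj
  have hsub : (((range (n / K + 1)).biUnion A : Finset (Finset (Fin n))) : Set (Finset (Fin n))) ⊆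
      {s : Finset (Fin n) | (blk n K).IsNClique r s} := by
    intro s hs
    rw [mem_coe, mem_biUnion] at hs
    obtain ⟨c, _, hs⟩ := hs
    rw [hA, mem_powersetCard] at hs
    rw [Set.mem_setOf_eq, SimpleGraph.isNClique_iff]
    refine ⟨?_, hs.2⟩
    intro x hx y hy hxy
    have h1 := hs.1 hx
    have h2 := hs.1 hy
    rw [bk, mem_filter] at h1 h2
    exact ⟨hxy, h1.2.trans h2.2.symm⟩
  have h1 : ((range (n / K + 1)).biUnion A).card ≤
      {s : Finset (Fin n) | (blk n K).IsNClique r s}.ncard := by
    rw [← Set.ncard_coe_finset]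
    exact Set.ncard_le_ncard hsub (Set.toFinite _)
  refine le_trans ?_ h1
  rw [hcard, Finset.sum_range_succ, f]
  have hdm := Nat.div_add_mod n K
  apply add_le_add
  · have h2 : ∀ c ∈ range (n / K), K.choose r ≤ (A c).card := by
      intro c hc
      rw [mem_range] at hc
      rw [hA, card_powersetCard]
      apply Nat.choose_le_choose
      apply bk_card n K c K hK _ le_rfl
      have h3 : (c + 1) * K ≤ n / K * K := Nat.mul_le_mul_right _ hc
      have h4 : n / K * K ≤ n := Nat.div_mul_le_self _ _
      have h5 : (c + 1) * K = c * K + K := by ring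
      omega
    have h3 := Finset.card_nsmul_le_sum (range (n / K)) (fun c => (A c).card) (K.choose r) h2
    rw [card_range, smul_eq_mul] at h3
    exact h3
  · rw [hA, card_powersetCard]
    apply Nat.choose_le_choose
    apply bk_card n K (n / K) (n % K) hK _ (Nat.mod_lt _ (by omega)).le
    rw [Nat.mul_comm] at hdm
    omega

end R367.TF.LOW
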