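import Pool.Agent.R367.TF.Stm

set_option autoImplicit false

namespace R367.TF.MISS

open Finset

theorem main : S_MISS := by
  intro V _ G _ M t N hN hmiss
  rcases Nat.lt_or_ge N.card (M + 2) with h | h
  · have h1 : (cl G (t + 2) N).card ≤ (M + 1).choose (t + 2) := by
      refine le_trans (card_le_card (filter_subset _ _)) ?_
      rw [card_powersetCard]
      exact Nat.choose_le_choose _ (by omega)
    have h2 : (M + 2).choose (t + 2) = (M + 1).choose (t + 1) + (M + 1).choose (t + 2) :=
      Nat.choose_succ_succ _ _
    have h3 : M.choose t ≤ (M + 1).choose (t + 1) := by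
      rw [Nat.choose_succ_succ]; omega
    omega
  · have hc : N.card = M + 2 := by omega
    obtain ⟨x, hx, y, hy, hxy, hnxy⟩ := hmiss hc
    have hyx : y ∈ N.erase x := mem_erase.2 ⟨hxy.symm, hy⟩
    have hP : (((N.erase x).erase y).powersetCard t).card = M.choose t := by
      rw [card_powersetCard, card_erase_of_mem hyx, card_erase_of_mem hx, hc]
      simp
    have hmem : ∀ s ∈ ((N.erase x).erase y).powersetCard t, x ∉ s ∧ y ∉ s ∧ s ⊆ N ∧ s.card = t := by
      intro s hs
      obtain ⟨h1, h2⟩ := mem_powersetCard.1 hs
      refine ⟨fun hh => ?_, fun hh => ?_, fun a ha => ?_, h2⟩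
      · have := h1 hh
        simp at this
      · have := h1 hh
        simp at this
      · have := h1 ha
        simp only [mem_erase] at this
        exact this.2.2
    have hinj : (((N.erase x).erase y).powersetCard t : Set (Finset V)).InjOn
        (fun s => insert x (insert y s)) := by
      intro s hs s' hs' he
      obtain ⟨hx1, hy1, -, -⟩ := hmem s hs
      obtain ⟨hx2, hy2, -, -⟩ := hmem s' hs'
      simp only at he
      ext a
      by_cases hax : a = x
      · subst hax
        simp [hx1, hx2]
      · by_cases hay : a = y
        · subst hay
          simp [hy1, hy2]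
        · have := Finset.ext_iff.1 he a
          simpa [hax, hay] using this
    have hcard : ((((N.erase x).erase y).powersetCard t).image
        (fun s => insert x (insert y s))).card = M.choose t := by
      rw [card_image_of_injOn hinj, hP]
    have hdisj : Disjoint (cl G (t + 2) N) ((((N.erase x).erase y).powersetCard t).image
        (fun s => insert x (insert y s))) := by
      rw [Finset.disjoint_left]
      intro s hs hs'
      obtain ⟨u, hu, rfl⟩ := mem_image.1 hs'
      have := (mem_filter.1 hs).2 x (by simp) y (by simp) hxy
      exact hnxy this
    have hsub : cl G (t + 2) N ∪ ((((N.erase x).erase y).powersetCard t).image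
        (fun s => insert x (insert y s))) ⊆ N.powersetCard (t + 2) := by
      apply union_subset (filter_subset _ _)
      intro s hs
      obtain ⟨u, hu, rfl⟩ := mem_image.1 hs
      obtain ⟨h1, h2, h3, h4⟩ := hmem u hu
      rw [mem_powersetCard]
      constructor
      · intro a ha
        simp only [mem_insert] at ha
        rcases ha with rfl | rfl | ha
        · exact hx
        · exact hy
        · exact h3 ha
      · rw [card_insert_of_notMem (by simp [hxy, h1]), card_insert_of_notMem h2, h4]
    have h5 := card_le_card hsub
    rw [card_union_of_disjoint hdisj, card_powersetCard, hcard, hc] at h5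
    exact h5

end R367.TF.MISS
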