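import Pool.Agent.R367.TF.Stm

set_option autoImplicit false

namespace R367.TF

open Finset

theorem mem_lf {k : ℕ} (T : SimpleGraph (Fin k)) (x y : Fin k) :
    y ∈ lf T x ↔ T.Adj x y ∧ ∀ u, T.Adj y u → u = x := by
  classical
  unfold lf; simp

theorem mem_nl {k : ℕ} (T : SimpleGraph (Fin k)) (x y : Fin k) :
    y ∈ nl T x ↔ T.Adj x y ∧ ∃ u, T.Adj y u ∧ u ≠ x := by
  classical
  unfold nl; simp

theorem mem_nb {V : Type} [DecidableEq V] (G : SimpleGraph V) [DecidableRel G.Adj] (v : V)
    (U : Finset V) (w : V) : w ∈ nb G v U ↔ w ∈ U ∧ G.Adj v w := by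
  unfold nb; simp

theorem mem_cl {V : Type} [DecidableEq V] (G : SimpleGraph V) [DecidableRel G.Adj] (r : ℕ)
    (S Q : Finset V) :
    Q ∈ cl G r S ↔ (Q ⊆ S ∧ Q.card = r) ∧ ∀ x ∈ Q, ∀ y ∈ Q, x ≠ y → G.Adj x y := by
  rw [cl, Finset.mem_filter, Finset.mem_powersetCard]

theorem ncard_eq {n : ℕ} (G : SimpleGraph (Fin n)) [DecidableRel G.Adj] (r : ℕ) :
    {s : Finset (Fin n) | G.IsNClique r s}.ncard = (cl G r univ).card := by
  rw [← Set.ncard_coe_finset]
  congr 1
  ext s
  rw [Finset.mem_coe, mem_cl]
  constructor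
  · intro h
    have h' : G.IsNClique r s := h
    rw [SimpleGraph.isNClique_iff] at h'
    refine ⟨⟨Finset.subset_univ _, h'.2⟩, ?_⟩
    intro x hx y hy hxy
    exact h'.1 (by exact_mod_cast hx) (by exact_mod_cast hy) hxy
  · rintro ⟨⟨_, h1⟩, h2⟩
    show G.IsNClique r s
    rw [SimpleGraph.isNClique_iff]
    refine ⟨?_, h1⟩
    intro x hx y hy hxy
    exact h2 x (by exact_mod_cast hx) y (by exact_mod_cast hy) hxy

theorem lf_nl_card {k : ℕ} (T : SimpleGraph (Fin k)) (x : Fin k) :
    (lf T x).card + (nl T x).card ≤ k - 1 := by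
  classical
  have hd : Disjoint (lf T x) (nl T x) := by
    rw [Finset.disjoint_left]
    intro y h1 h2
    rw [mem_lf] at h1
    rw [mem_nl] at h2
    obtain ⟨_, u, hu, hne⟩ := h2
    exact hne (h1.2 u hu)
  rw [← Finset.card_union_of_disjoint hd]
  have hsub : lf T x ∪ nl T x ⊆ univ.erase x := by
    intro y hy
    rw [Finset.mem_erase]
    refine ⟨?_, Finset.mem_univ _⟩
    rintro rfl
    rcases Finset.mem_union.1 hy with h | h
    · rw [mem_lf] at h; exact T.loopless.irrefl _ h.1
    · rw [mem_nl] at h; exact T.loopless.irrefl _ h.1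
  have := Finset.card_le_card hsub
  rwa [Finset.card_erase_of_mem (Finset.mem_univ x), Finset.card_univ, Fintype.card_fin] at this

theorem f_small {K r s : ℕ} (h : s < K) : f K r s = s.choose r := by
  unfold f
  rw [Nat.div_eq_of_lt h, Nat.mod_eq_of_lt h]; simp

theorem nb_card_erase {V : Type} [DecidableEq V] (G : SimpleGraph V) [DecidableRel G.Adj]
    (v z : V) (C : Finset V) : (nb G v C).card ≤ (nb G v (C.erase z)).card + 1 := by
  have : nb G v (C.erase z) = (nb G v C).erase z := by
    ext w
    simp only [mem_nb, Finset.mem_erase]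
    tauto
  rw [this]
  have := Finset.pred_card_le_card_erase (s := nb G v C) (a := z)
  omega

theorem nb_erase_self {V : Type} [DecidableEq V] (G : SimpleGraph V) [DecidableRel G.Adj]
    (z : V) (C : Finset V) : nb G z (C.erase z) = nb G z C := by
  ext w
  simp only [mem_nb, Finset.mem_erase]
  constructor
  · rintro ⟨⟨_, h1⟩, h2⟩; exact ⟨h1, h2⟩
  · rintro ⟨h1, h2⟩
    refine ⟨⟨?_, h1⟩, h2⟩
    rintro rfl
    exact G.loopless.irrefl _ h2

/-- the upper bound for leaf-heavy trees -/
theorem upper1 (hSUP : S_SUP) (hNUM1 : S_NUM1) (hNUM2 : S_NUM2) (hCHASE : S_CHASE)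
    (hCORE : S_CORE) (hDEG : S_DEG) (hEMB : S_EMB) {k : ℕ} (hk : 2 ≤ k)
    (T : SimpleGraph (Fin k)) (hT : T.IsTree) (x : Fin k)
    (h1 : k ≤ 2 * ((lf T x).card + 1))
    (h2 : (nl T x).card ≤ 1 ∨
      3 * (k - 2 - (lf T x).card).choose 2 ≤ (k - (nl T x).card).choose 2)
    {r : ℕ} (hr : 3 ≤ r) {n : ℕ} (G : SimpleGraph (Fin n)) (hG : T.Free G) :
    {s : Finset (Fin n) | G.IsNClique r s}.ncard ≤ f (k - 1) r n := by
  classical
  rw [ncard_eq]
  have hcn : (univ : Finset (Fin n)).card = n := by simp
  have hno : ∀ φ : Fin k → Fin n, Function.Injective φ →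
      ¬ ∀ a b, T.Adj a b → G.Adj (φ a) (φ b) := by
    intro φ hφ hadj
    exact hG ⟨⟨⟨φ, fun {a b} hab => hadj a b hab⟩, hφ⟩⟩
  by_cases hB : ∀ v : Fin n, (nb G v univ).card + 1 ≤ k - 1
  · have := hCHASE (Fin n) G r (k - 1) univ hr (by omega) (fun v _ => hB v)
    rwa [hcn] at this
  · push Not at hB
    obtain ⟨z, hz⟩ := hB
    have hln := lf_nl_card T x
    set l := (lf T x).card with hl
    set j := (nl T x).card with hj
    obtain ⟨C, hCU, hC1, hC2⟩ := hCORE (Fin n) G (k - 1 - l) univ
    -- big vertices are not in the core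
    have hbig : ∀ v : Fin n, k - 1 ≤ (nb G v univ).card → v ∉ C := by
      intro v hv hvC
      obtain ⟨φ, hφ, hadj⟩ := hEMB k T x hT (Fin n) G univ (C.erase v) v
        (Finset.subset_univ _) (by simp) hv
        (by
          rw [nb_erase_self]
          have := hC1 v hvC
          omega)
        (by
          intro w hw
          have h3 := hC1 w (Finset.mem_of_mem_erase hw)
          have h4 := nb_card_erase G w v C
          omega)
      exact hno φ hφ hadj
    have hzC : z ∉ C := hbig z (by omega)
    have hzn : (nb G z C).card < j := by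
      by_contra hcon
      push Not at hcon
      obtain ⟨φ, hφ, hadj⟩ := hEMB k T x hT (Fin n) G univ C z
        (Finset.subset_univ _) hzC (by omega) hcon
        (by
          intro w hw
          have h3 := hC1 w hw
          omega)
      exact hno φ hφ hadj
    set X := univ \ C with hX
    have hXC : X ∪ C = univ := by
      rw [hX]; exact Finset.sdiff_union_of_subset hCU
    have hdisj : Disjoint X C := Finset.sdiff_disjoint
    have hcard : X.card + C.card = n := by
      rw [← Finset.card_union_of_disjoint hdisj, hXC, hcn]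
    have hXcard : k + 1 ≤ X.card + j := by
      have e1 : nb G z univ = nb G z X ∪ nb G z C := by
        rw [← hXC]; unfold nb; rw [Finset.filter_union]
      have e2 : (nb G z univ).card ≤ (nb G z X).card + (nb G z C).card := by
        rw [e1]; exact Finset.card_union_le _ _
      have e3 : (nb G z X).card + 1 ≤ X.card := by
        have hzX : z ∈ X := by rw [hX]; simp [hzC]
        have : nb G z X ⊆ X.erase z := by
          intro w hw
          rw [mem_nb] at hw
          rw [Finset.mem_erase]
          refine ⟨?_, hw.1⟩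
          rintro rfl
          exact G.loopless.irrefl _ hw.2
        have := Finset.card_le_card this
        rw [Finset.card_erase_of_mem hzX] at this
        have hpos : 0 < X.card := Finset.card_pos.2 ⟨z, hzX⟩
        omega
      omega
    have hdeg := hDEG (Fin n) G (k - 1 - l) r C X (by omega) hdisj
      (fun Y hY hne => hC2 Y (hX ▸ hY) hne)
    rw [hXC] at hdeg
    have hch := hCHASE (Fin n) G r (k - 1) C hr (by omega) (by
      intro v hv
      have h5 : ¬ (k - 1 ≤ (nb G v univ).card) := fun h => hbig v h hv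
      have h6 : (nb G v C).card ≤ (nb G v univ).card := by
        apply Finset.card_le_card
        intro w hw
        rw [mem_nb] at hw ⊢
        exact ⟨Finset.mem_univ _, hw.2⟩
      omega)
    have hnum : X.card * (k - 1 - l - 1).choose (r - 1) ≤ f (k - 1) r X.card := by
      rcases Nat.lt_or_ge X.card (k - 1) with hlt | hge
      · have hj3 : ¬ j ≤ 1 := by omega
        have h3 := h2.resolve_left hj3
        rw [f_small hlt]
        apply hNUM2 _ _ _ hr (by omega)
        have e : k - 1 - l - 1 = k - 2 - l := by omega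
        rw [e]
        exact h3.trans (Nat.choose_le_choose 2 (by omega))
      · exact hNUM1 _ _ _ _ hr (by omega) hge
    have hsup := hSUP (k - 1) r X.card C.card (by omega) (by omega)
    rw [hcard] at hsup
    omega

end R367.TF
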