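import Pool.Agent.R367.TF.Main1
import Pool.Agent.H223R3.Tree.Blocks

set_option autoImplicit false

namespace R367.TF

open Finset

theorem f_self {K r : ℕ} (hK : 1 ≤ K) (hr : 1 ≤ r) : f K r K = K.choose r := by
  unfold f
  rw [Nat.div_self hK, Nat.mod_self, one_mul, Nat.choose_eq_zero_of_lt hr, add_zero]

theorem cl_le_choose {V : Type} [DecidableEq V] (G : SimpleGraph V) [DecidableRel G.Adj]
    (r : ℕ) (S : Finset V) : (cl G r S).card ≤ S.card.choose r := by
  unfold cl
  refine (Finset.card_filter_le _ _).trans ?_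
  rw [Finset.card_powersetCard]

theorem choose_two_step {M t : ℕ} (h : (M + 2) * (M + 1) ≤ 2 * ((t + 2) * (t + 1))) :
    (M + 2).choose (t + 2) ≤ 2 * M.choose t := by
  have e1 := Nat.add_one_mul_choose_eq (M + 1) (t + 1)
  have e2 := Nat.add_one_mul_choose_eq M t
  have h3 : (M + 2) * (M + 1) * M.choose t = (M + 2).choose (t + 2) * ((t + 2) * (t + 1)) := by
    calc (M + 2) * (M + 1) * M.choose t = (M + 2) * ((M + 1) * M.choose t) := by ring
      _ = (M + 2) * ((M + 1).choose (t + 1) * (t + 1)) := by rw [e2]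
      _ = ((M + 1 + 1) * (M + 1).choose (t + 1)) * (t + 1) := by ring
      _ = ((M + 1 + 1).choose (t + 1 + 1) * (t + 1 + 1)) * (t + 1) := by rw [e1]
      _ = _ := by ring
  have h4 : (M + 2).choose (t + 2) * ((t + 2) * (t + 1)) ≤
      (2 * M.choose t) * ((t + 2) * (t + 1)) := by
    rw [← h3]
    calc (M + 2) * (M + 1) * M.choose t ≤ 2 * ((t + 2) * (t + 1)) * M.choose t :=
          Nat.mul_le_mul_right _ h
      _ = _ := by ring
  exact Nat.le_of_mul_le_mul_right h4 (by positivity)

theorem upper2 (hSUP : S_SUP) (hOUT : S_OUT) (hCOV : S_COV) (hCNT : S_CNT) (hMISS : S_MISS)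
    {k : ℕ} (hk : 2 ≤ k) (T : SimpleGraph (Fin k)) (hT : T.IsTree) (S : Finset (Fin k))
    (hS : ∀ a b, T.Adj a b → a ∈ S ∨ b ∈ S) {r : ℕ} (hr : S.card + 2 ≤ r)
    (hr2 : (k - 1 - S.card) * (k - 2 - S.card) ≤ 2 * ((r - S.card) * (r - S.card - 1)))
    {V : Type} [DecidableEq V] (G : SimpleGraph V) [DecidableRel G.Adj]
    (hno : ∀ φ : Fin k → V, Function.Injective φ → ¬ ∀ a b, T.Adj a b → G.Adj (φ a) (φ b)) :
    ∀ (m : ℕ) (U : Finset V), U.card = m → (cl G r U).card ≤ f (k - 1) r m := by
  have hS1 : 1 ≤ S.card := by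
    have z0 : Fin k := ⟨0, by omega⟩
    obtain ⟨w⟩ := hT.connected.preconnected (⟨0, by omega⟩ : Fin k) (⟨1, by omega⟩ : Fin k)
    have hex : ∃ a b, T.Adj a b := by
      cases w with
      | cons h _ => exact ⟨_, _, h⟩
    obtain ⟨a, b, hab⟩ := hex
    rcases hS a b hab with h | h
    · exact Finset.card_pos.2 ⟨a, h⟩
    · exact Finset.card_pos.2 ⟨b, h⟩
  intro m
  induction m using Nat.strong_induction_on with
  | _ m ih =>
  intro U hU
  rcases Nat.lt_or_ge m (k - 1) with hlt | hge
  · rw [f_small hlt, ← hU]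
    exact cl_le_choose G r U
  by_cases hQ : ∃ Q, Q ∈ cl G (k - 1) U
  · obtain ⟨Q, hQ⟩ := hQ
    rw [mem_cl] at hQ
    obtain ⟨⟨hQU, hQc⟩, hQa⟩ := hQ
    have hsub : cl G r U ⊆ cl G r Q ∪ cl G r (U \ Q) := by
      intro R hR
      rw [mem_cl] at hR
      rw [Finset.mem_union, mem_cl, mem_cl]
      by_cases hRQ : R ⊆ Q
      · exact Or.inl ⟨⟨hRQ, hR.1.2⟩, hR.2⟩
      · right
        refine ⟨⟨?_, hR.1.2⟩, hR.2⟩
        rw [Finset.not_subset] at hRQ
        obtain ⟨w, hwR, hwQ⟩ := hRQ
        intro u huR
        rw [Finset.mem_sdiff]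
        refine ⟨hR.1.1 huR, fun huQ => ?_⟩
        have huw : u ≠ w := fun h => hwQ (h ▸ huQ)
        obtain ⟨φ, hφ, hadj⟩ := hOUT k T hk hT V G Q u w hQc hQa huQ hwQ (hR.2 u huR w hwR huw)
        exact hno φ hφ hadj
    have h1 := (Finset.card_le_card hsub).trans (Finset.card_union_le _ _)
    have h2 : (cl G r Q).card ≤ f (k - 1) r (k - 1) := by
      rw [f_self (by omega) (by omega), ← hQc]
      exact cl_le_choose G r Q
    have h3 : (U \ Q).card = m - (k - 1) := by
      rw [Finset.card_sdiff_of_subset hQU, hU, hQc]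
    have h4 := ih (m - (k - 1)) (by omega) (U \ Q) h3
    have h5 := hSUP (k - 1) r (k - 1) (m - (k - 1)) (by omega) (by omega)
    rw [Nat.add_sub_cancel' hge] at h5
    omega
  · -- no clique with `k - 1` vertices
    push Not at hQ
    rcases Nat.lt_or_ge r (k - 1) with hrk | hrk
    swap
    · have : cl G r U = ∅ := by
        rw [Finset.eq_empty_iff_forall_notMem]
        intro R hR
        rw [mem_cl] at hR
        obtain ⟨Q, hQR, hQc⟩ := Finset.exists_subset_card_eq (s := R) (n := k - 1)
          (by rw [hR.1.2]; exact hrk)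
        apply hQ Q
        rw [mem_cl]
        exact ⟨⟨hQR.trans hR.1.1, hQc⟩, fun x hx y hy hxy => hR.2 x (hQR hx) y (hQR hy) hxy⟩
      rw [this]; simp
    · obtain ⟨t, ht⟩ : ∃ t, r = S.card + (t + 2) := ⟨r - S.card - 2, by omega⟩
      obtain ⟨M, hM⟩ : ∃ M, k - 1 = S.card + (M + 2) := ⟨k - 1 - S.card - 2, by omega⟩
      have hkM : k = S.card + M + 3 := by omega
      have hMt : (M + 2) * (M + 1) ≤ 2 * ((t + 2) * (t + 1)) := by
        have e1 : k - 1 - S.card = M + 2 := by omega
        have e2 : k - 2 - S.card = M + 1 := by omega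
        have e3 : r - S.card = t + 2 := by omega
        rw [e1, e2, e3] at hr2
        exact hr2
      have hstep := choose_two_step hMt
      have hloc : ∀ Q ∈ cl G S.card U, 2 * (cl G (t + 2) (cn G Q U)).card ≤
          (M + 2).choose (t + 2) := by
        intro Q hQm
        rw [mem_cl] at hQm
        have h1 : (cn G Q U).card ≤ M + 2 := by
          by_contra hcon
          push Not at hcon
          obtain ⟨φ, hφ, hadj⟩ := hCOV k T S hS V G Q U hQm.1.2 hQm.2 (by omega)
          exact hno φ hφ hadj
        have h2 : (cn G Q U).card = M + 2 → ∃ x ∈ cn G Q U, ∃ y ∈ cn G Q U, x ≠ y ∧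
            ¬ G.Adj x y := by
          intro h3
          by_contra hcon
          push Not at hcon
          apply hQ (Q ∪ cn G Q U)
          have hmem : ∀ w ∈ cn G Q U, w ∈ U ∧ ∀ v ∈ Q, G.Adj v w := by
            intro w hw
            unfold cn at hw
            rwa [Finset.mem_filter] at hw
          have hdis : Disjoint Q (cn G Q U) := by
            rw [Finset.disjoint_left]
            intro a ha1 ha2
            exact G.loopless.irrefl _ ((hmem a ha2).2 a ha1)
          rw [mem_cl]
          refine ⟨⟨?_, ?_⟩, ?_⟩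
          · apply Finset.union_subset hQm.1.1
            intro w hw
            exact (hmem w hw).1
          · rw [Finset.card_union_of_disjoint hdis, hQm.1.2, h3]; omega
          · intro x hx y hy hxy
            rcases Finset.mem_union.1 hx with hx | hx <;> rcases Finset.mem_union.1 hy with hy | hy
            · exact hQm.2 x hx y hy hxy
            · exact (hmem y hy).2 x hx
            · exact ((hmem x hx).2 y hy).symm
            · exact hcon x hx y hy hxy
        have h3 := hMISS V G M t (cn G Q U) h1 h2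
        omega
      have hcnt := hCNT V G S.card (t + 2) U
      have hsum : 2 * ∑ Q ∈ cl G S.card U, (cl G (t + 2) (cn G Q U)).card ≤
          (cl G S.card U).card * (M + 2).choose (t + 2) := by
        rw [Finset.mul_sum, ← smul_eq_mul, ← Finset.sum_const]
        exact Finset.sum_le_sum hloc
      obtain ⟨τ, hτ⟩ : ∃ τ, S.card = τ + 1 := ⟨S.card - 1, by omega⟩
      have hcb : (k - 1) * (cl G S.card U).card ≤ (k - 1).choose S.card * U.card := by
        rw [hτ]
        refine H223R3.Tree.clique_bound G τ k hk (Fin k) T hT (Fintype.card_fin k) U ?_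
        rintro ⟨φ, hφ, _, hadj⟩
        exact hno φ hφ hadj
      have hid : (k - 1).choose r * r.choose S.card =
          (k - 1).choose S.card * (M + 2).choose (t + 2) := by
        have := Nat.choose_mul (n := k - 1) (k := r) (s := S.card) (by omega)
        rw [this]
        congr 2 <;> omega
      have hrc : 0 < r.choose S.card := Nat.choose_pos (by omega)
      rw [← ht] at hcnt
      have hA : 2 * (k - 1) * (cl G r U).card ≤ (k - 1).choose r * m := by
        have : r.choose S.card * (2 * (k - 1) * (cl G r U).card) ≤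
            r.choose S.card * ((k - 1).choose r * m) := by
          calc r.choose S.card * (2 * (k - 1) * (cl G r U).card)
              = 2 * (k - 1) * (r.choose S.card * (cl G r U).card) := by ring
            _ ≤ 2 * (k - 1) * ∑ Q ∈ cl G S.card U, (cl G (t + 2) (cn G Q U)).card :=
                Nat.mul_le_mul_left _ hcnt
            _ = (k - 1) * (2 * ∑ Q ∈ cl G S.card U, (cl G (t + 2) (cn G Q U)).card) := by ring
            _ ≤ (k - 1) * ((cl G S.card U).card * (M + 2).choose (t + 2)) :=
                Nat.mul_le_mul_left _ hsum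
            _ = ((k - 1) * (cl G S.card U).card) * (M + 2).choose (t + 2) := by ring
            _ ≤ ((k - 1).choose S.card * U.card) * (M + 2).choose (t + 2) :=
                Nat.mul_le_mul_right _ hcb
            _ = ((k - 1).choose S.card * (M + 2).choose (t + 2)) * m := by rw [hU]; ring
            _ = ((k - 1).choose r * r.choose S.card) * m := by rw [hid]
            _ = _ := by ring
        exact Nat.le_of_mul_le_mul_left this hrc
      have hK : 0 < k - 1 := by omega
      have hm := Nat.div_add_mod m (k - 1)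
      have hmod := Nat.mod_lt m hK
      have ha : 1 ≤ m / (k - 1) := (Nat.one_le_div_iff hK).2 hge
      have hm2 : m ≤ 2 * (m / (k - 1)) * (k - 1) := by
        have : k - 1 ≤ (m / (k - 1)) * (k - 1) := Nat.le_mul_of_pos_left _ ha
        have e : (k - 1) * (m / (k - 1)) = (m / (k - 1)) * (k - 1) := Nat.mul_comm _ _
        have e2 : 2 * (m / (k - 1)) * (k - 1) = (m / (k - 1)) * (k - 1) +
          (m / (k - 1)) * (k - 1) := by ring
        omega
      have hB : 2 * (k - 1) * (cl G r U).card ≤
          2 * (k - 1) * (m / (k - 1) * (k - 1).choose r) := by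
        calc _ ≤ (k - 1).choose r * m := hA
          _ ≤ (k - 1).choose r * (2 * (m / (k - 1)) * (k - 1)) := Nat.mul_le_mul_left _ hm2
          _ = _ := by ring
      have hC := Nat.le_of_mul_le_mul_left hB (by omega)
      unfold f
      omega

end R367.TF
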