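import Pool.Agent.R367.TF.Stm

set_option autoImplicit false

namespace R367.TF.NUM1

open Finset R367.TF

lemma c2 (n : ℕ) : (2:ℤ) * (n.choose 2 : ℕ) = n * (n - 1) := by
  induction n with
  | zero => simp
  | succ n ih =>
    rw [Nat.choose_succ_succ' n 1, Nat.choose_one_right]
    push_cast
    linarith

lemma c3 (n : ℕ) : (6:ℤ) * (n.choose 3 : ℕ) = n * (n - 1) * (n - 2) := by
  induction n with
  | zero => simp
  | succ n ih =>
    rw [Nat.choose_succ_succ' n 2]
    have := c2 n
    push_cast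
    linarith

lemma pow_choose (m t : ℕ) : 2 ^ t * m.choose t ≤ (2 * m).choose t := by
  induction t with
  | zero => simp
  | succ t ih =>
    have h1 := Nat.choose_succ_right_eq m t
    have h2 := Nat.choose_succ_right_eq (2 * m) t
    have h3 : 2 * (m - t) ≤ 2 * m - t := by omega
    have h4 : (t + 1) * (2 ^ (t + 1) * m.choose (t + 1)) ≤ (t + 1) * (2 * m).choose (t + 1) := by
      calc (t + 1) * (2 ^ (t + 1) * m.choose (t + 1))
          = 2 ^ (t + 1) * (m.choose (t + 1) * (t + 1)) := by ring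
        _ = (2 ^ t * m.choose t) * (2 * (m - t)) := by rw [h1, pow_succ]; ring
        _ ≤ (2 * m).choose t * (2 * m - t) := Nat.mul_le_mul ih h3
        _ = (t + 1) * (2 * m).choose (t + 1) := by rw [← h2]; ring
    exact Nat.le_of_mul_le_mul_left h4 (Nat.succ_pos t)

lemma two_mul_le_pow {r : ℕ} (hr : 4 ≤ r) : 2 * r ≤ 2 ^ (r - 1) := by
  induction r, hr using Nat.le_induction with
  | base => norm_num
  | succ r hr ih =>
    have : r + 1 - 1 = (r - 1) + 1 := by omega
    rw [this, pow_succ]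
    omega

lemma claimA (K m r b : ℕ) (hr : 3 ≤ r) (hm : 2 * m + 1 ≤ K) (hb : b < K) :
    (K + b) * m.choose (r - 1) ≤ K.choose r + b.choose r := by
  rcases Nat.lt_or_ge r 4 with h | h
  · have hr3 : r = 3 := by omega
    subst hr3
    have e2 := c2 m
    have e3 := c3 K
    have e4 := c3 b
    have hK : (1:ℤ) ≤ K := by exact_mod_cast (by omega : 1 ≤ K)
    have hb' : (b:ℤ) + 1 ≤ K := by exact_mod_cast hb
    have hb0 : (0:ℤ) ≤ b := Nat.cast_nonneg b
    have hm' : 2 * (m:ℤ) + 1 ≤ K := by exact_mod_cast hm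
    have hm0 : (0:ℤ) ≤ m := Nat.cast_nonneg m
    have key : 3 * ((K:ℤ) + b) * (m * (m - 1)) ≤ K * (K - 1) * (K - 2) + b * (b - 1) * (b - 2) := by
      have h1 : 4 * ((m:ℤ) * (m - 1)) ≤ (K - 1) * (K - 3) ∨ m = 0 := by
        rcases Nat.eq_zero_or_pos m with h0 | h0
        · exact Or.inr h0
        · left
          have h0' : (1:ℤ) ≤ m := by exact_mod_cast h0
          nlinarith
      have hid : 4 * ((K:ℤ) * (K - 1) * (K - 2) + b * (b - 1) * (b - 2)) -
          3 * (K + b) * ((K - 1) * (K - 3)) =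
          (K + b) * (K - 2 * b) ^ 2 + 12 * b * (K - b) - (K + b) := by ring
      have hpos : 0 ≤ ((K:ℤ) + b) * (K - 2 * b) ^ 2 + 12 * b * (K - b) - (K + b) := by
        rcases Nat.eq_zero_or_pos b with h0 | h0
        · subst h0
          have : ((K:ℤ) + ((0:ℕ):ℤ)) * (K - 2 * ((0:ℕ):ℤ)) ^ 2 + 12 * ((0:ℕ):ℤ) * (K - ((0:ℕ):ℤ))
              - (K + ((0:ℕ):ℤ)) = K * (K - 1) * (K + 1) := by
            rw [Nat.cast_zero]; ring
          rw [this]
          exact mul_nonneg (mul_nonneg (by linarith) (by linarith)) (by linarith)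
        · have h0' : (1:ℤ) ≤ b := by exact_mod_cast h0
          have h2 : 0 ≤ ((b:ℤ) - 1) * (K - 1 - b) := mul_nonneg (by linarith) (by linarith)
          have h3 : 0 ≤ ((K:ℤ) + b) * (K - 2 * b) ^ 2 := by positivity
          nlinarith
      rcases h1 with h1 | h1
      · have h4 : 3 * ((K:ℤ) + b) * (4 * (m * (m - 1))) ≤ 3 * (K + b) * ((K - 1) * (K - 3)) :=
          mul_le_mul_of_nonneg_left h1 (by positivity)
        nlinarith
      · subst h1
        have e3' : (0:ℤ) ≤ 6 * (K.choose 3 : ℕ) := by positivity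
        have e4' : (0:ℤ) ≤ 6 * (b.choose 3 : ℕ) := by positivity
        rw [e3] at e3'
        rw [e4] at e4'
        push_cast
        nlinarith
    have h5 : (((K + b) * m.choose (3 - 1) : ℕ) : ℤ) ≤ ((K.choose 3 + b.choose 3 : ℕ) : ℤ) := by
      push_cast
      have e2' : (2:ℤ) * ((m.choose (3 - 1) : ℕ) : ℤ) = m * (m - 1) := e2
      push_cast at e2' e3 e4
      nlinarith
    exact_mod_cast h5
  · have h1 : 2 * r * m.choose (r - 1) ≤ (K - 1).choose (r - 1) := by
      calc 2 * r * m.choose (r - 1) ≤ 2 ^ (r - 1) * m.choose (r - 1) :=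
            Nat.mul_le_mul_right _ (two_mul_le_pow h)
        _ ≤ (2 * m).choose (r - 1) := pow_choose m (r - 1)
        _ ≤ (K - 1).choose (r - 1) := Nat.choose_le_choose _ (by omega)
    have h2 : r * K.choose r = K * (K - 1).choose (r - 1) := by
      obtain ⟨K', rfl⟩ : ∃ K', K = K' + 1 := ⟨K - 1, by omega⟩
      obtain ⟨r', rfl⟩ : ∃ r', r = r' + 1 := ⟨r - 1, by omega⟩
      have := Nat.add_one_mul_choose_eq K' r'
      simp only [Nat.add_sub_cancel]
      rw [this]; ring
    have h3 : r * ((K + b) * m.choose (r - 1)) ≤ r * K.choose r := by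
      rw [h2]
      calc r * ((K + b) * m.choose (r - 1)) ≤ r * ((2 * K) * m.choose (r - 1)) := by
            apply Nat.mul_le_mul_left
            apply Nat.mul_le_mul_right
            omega
        _ = K * (2 * r * m.choose (r - 1)) := by ring
        _ ≤ K * (K - 1).choose (r - 1) := Nat.mul_le_mul_left _ h1
    have h4 := Nat.le_of_mul_le_mul_left h3 (by omega)
    omega

theorem main : S_NUM1 := by
  intro K m r s hr hm hs
  unfold f
  have hK : 0 < K := by omega
  have hdiv := Nat.div_add_mod s K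
  have hmod := Nat.mod_lt s hK
  have ha : 1 ≤ s / K := (Nat.one_le_div_iff hK).mpr hs
  obtain ⟨a, ha'⟩ : ∃ a, s / K = a + 1 := ⟨s / K - 1, by omega⟩
  set b := s % K
  rw [ha'] at hdiv ⊢
  have h1 := claimA K m r b hr hm hmod
  have h0 := claimA K m r 0 hr hm hK
  rw [Nat.choose_eq_zero_of_lt (show 0 < r by omega)] at h0
  calc s * m.choose (r - 1) = a * ((K + 0) * m.choose (r - 1)) + (K + b) * m.choose (r - 1) := by
        rw [← hdiv]; ring
    _ ≤ a * (K.choose r + 0) + (K.choose r + b.choose r) :=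
        Nat.add_le_add (Nat.mul_le_mul_left _ h0) h1
    _ = (a + 1) * K.choose r + b.choose r := by ring

end R367.TF.NUM1
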