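import Pool.Agent.R367.TF.Stm

set_option autoImplicit false

/-! # Piece NUM2 of project TF (helper711) -/

namespace R367.TF.NUM2

theorem two_choose (m : ℕ) : 2 * m.choose 2 + m = m * m := by
  induction m with
  | zero => rfl
  | succ m ih =>
    have h : (m + 1).choose 2 = m.choose 1 + m.choose 2 := Nat.choose_succ_succ m 1
    rw [h, Nat.choose_one_right]
    nlinarith

theorem four_le (m n : ℕ) (h : 3 * m.choose 2 ≤ n.choose 2) (hm : 2 ≤ m) : 4 * m ≤ 3 * n := by
  have h1 := two_choose m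
  have h2 := two_choose n
  by_contra hc
  push Not at hc
  have h3 : 3 * (m * m) + n ≤ n * n + 3 * m := by omega
  nlinarith

theorem step (m n : ℕ) (h : 3 * m.choose 2 ≤ n.choose 2) (t : ℕ) :
    (t + 3) * m.choose (t + 2) ≤ n.choose (t + 2) := by
  induction t with
  | zero => exact h
  | succ t ih =>
    rcases Nat.lt_or_ge m (t + 3) with hm | hm
    · have h0 : m.choose (t + 1 + 2) = 0 := Nat.choose_eq_zero_of_lt hm
      rw [h0, Nat.mul_zero]
      exact Nat.zero_le _
    · have h4 := four_le m n h (by omega)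
      obtain ⟨p, rfl⟩ : ∃ p, m = t + 2 + p := ⟨m - (t + 2), by omega⟩
      obtain ⟨q, rfl⟩ : ∃ q, n = t + 2 + q := ⟨n - (t + 2), by omega⟩
      have e1 := Nat.choose_succ_right_eq (t + 2 + p) (t + 2)
      have e2 := Nat.choose_succ_right_eq (t + 2 + q) (t + 2)
      rw [Nat.add_sub_cancel_left] at e1 e2
      have h5 : (t + 4) * p ≤ (t + 3) * q := by
        have h6 : 4 * p + t + 2 ≤ 3 * q := by omega
        have h7 : 3 * ((t + 4) * p) ≤ 3 * ((t + 3) * q) := by
          calc 3 * ((t + 4) * p) ≤ (t + 3) * (4 * p + t + 2) := by nlinarith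
            _ ≤ (t + 3) * (3 * q) := Nat.mul_le_mul_left _ h6
            _ = _ := by ring
        omega
      generalize (t + 2 + p).choose (t + 2) = A at *
      generalize (t + 2 + q).choose (t + 2) = B at *
      have e3 : t + 1 + 2 = t + 2 + 1 := rfl
      rw [e3]
      generalize (t + 2 + p).choose (t + 2 + 1) = A' at *
      generalize (t + 2 + q).choose (t + 2 + 1) = B' at *
      have h8 : (t + 3) * ((t + 1 + 3) * A') ≤ (t + 3) * B' := by
        calc (t + 3) * ((t + 1 + 3) * A') = (t + 4) * (A' * (t + 2 + 1)) := by ring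
          _ = A * ((t + 4) * p) := by rw [e1]; ring
          _ ≤ A * ((t + 3) * q) := Nat.mul_le_mul_left _ h5
          _ = ((t + 3) * A) * q := by ring
          _ ≤ B * q := Nat.mul_le_mul_right _ ih
          _ = (t + 3) * B' := by rw [← e2]; ring
      exact Nat.le_of_mul_le_mul_left h8 (by omega)

theorem main : S_NUM2 := by
  intro m r s hr hs h
  obtain ⟨t, rfl⟩ : ∃ t, r = t + 3 := ⟨r - 3, by omega⟩
  obtain ⟨n, rfl⟩ : ∃ n, s = n + 1 := ⟨s - 1, by omega⟩
  have h1 := step m n h t
  have h2 := Nat.add_one_mul_choose_eq n (t + 2)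
  have e : t + 3 - 1 = t + 2 := rfl
  rw [e]
  have h3 : (t + 3) * ((n + 1) * m.choose (t + 2)) ≤ (t + 3) * (n + 1).choose (t + 3) := by
    calc (t + 3) * ((n + 1) * m.choose (t + 2)) = (n + 1) * ((t + 3) * m.choose (t + 2)) := by ring
      _ ≤ (n + 1) * n.choose (t + 2) := Nat.mul_le_mul_left _ h1
      _ = (n + 1).choose (t + 3) * (t + 3) := h2
      _ = _ := Nat.mul_comm _ _
  exact Nat.le_of_mul_le_mul_left h3 (by omega)

end R367.TF.NUM2
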