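import Pool.Agent.R367.TF.Stm

/-! # Project TF, piece OUT: a clique with an outgoing edge contains every tree -/

set_option autoImplicit false

namespace R367.TF.OUT

open Finset

theorem main : S_OUT := by
  classical
  intro k T hk hT V _ G _ Q u w hQ hcl hu hw huw
  have hnt : Nontrivial (Fin k) := Fin.nontrivial_iff_two_le.2 hk
  obtain ⟨y, hy⟩ := hT.exists_vert_degree_one_of_nontrivial
  obtain ⟨p, hyp, hp⟩ := SimpleGraph.degree_eq_one_iff_existsUnique_adj.1 hy
  have hpy : p ≠ y := fun h => by subst h; exact T.loopless.irrefl _ hyp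
  -- bijection of the other vertices with `Q`, taking `p` to `u`
  have hc1 : Fintype.card {a : Fin k // a ≠ y} = Fintype.card ↥Q := by
    rw [Fintype.card_coe, hQ]
    rw [Fintype.card_subtype_compl (fun a : Fin k => a = y)]
    simp
  obtain ⟨e0⟩ := Fintype.card_eq.1 hc1
  let e : {a : Fin k // a ≠ y} ≃ ↥Q := e0.trans (Equiv.swap (e0 ⟨p, hpy⟩) ⟨u, hu⟩)
  have hep : e ⟨p, hpy⟩ = ⟨u, hu⟩ := by simp [e]
  refine ⟨fun a => if h : a = y then w else (e ⟨a, h⟩ : V), ?_, ?_⟩
  · intro a b hab
    dsimp only at hab
    by_cases ha : a = y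
    · by_cases hb : b = y
      · rw [ha, hb]
      · rw [dif_pos ha, dif_neg hb] at hab
        exact absurd (hab ▸ (e ⟨b, hb⟩).2) hw
    · by_cases hb : b = y
      · rw [dif_neg ha, dif_pos hb] at hab
        exact absurd (hab ▸ (e ⟨a, ha⟩).2) hw
      · rw [dif_neg ha, dif_neg hb] at hab
        have := e.injective (Subtype.ext hab)
        exact congrArg Subtype.val this
  · have key : ∀ b, T.Adj y b → ∃ h : b ≠ y, (e ⟨b, h⟩ : V) = u := by
      intro b hb
      have := hp b hb
      subst this
      exact ⟨hpy, by rw [hep]⟩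
    intro a b hab
    dsimp only
    by_cases ha : a = y
    · have hb : b ≠ y := fun h => by subst ha; subst h; exact T.loopless.irrefl _ hab
      rw [dif_pos ha, dif_neg hb]
      subst ha
      obtain ⟨h, he⟩ := key b hab
      rw [he]
      exact huw.symm
    · by_cases hb : b = y
      · rw [dif_neg ha, dif_pos hb]
        subst hb
        obtain ⟨h, he⟩ := key a hab.symm
        rw [he]
        exact huw
      · rw [dif_neg ha, dif_neg hb]
        apply hcl _ (e ⟨a, ha⟩).2 _ (e ⟨b, hb⟩).2
        intro h
        have := e.injective (Subtype.ext h)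
        have h2 : a = b := congrArg Subtype.val this
        subst h2
        exact T.loopless.irrefl _ hab

end R367.TF.OUT
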