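import Pool.Agent.R367.TF.Stm

set_option autoImplicit false

/-! # Piece SUP of project TF (helper711): superadditivity -/

namespace R367.TF.SUP

theorem mono_diff (s y z d : ℕ) (h : y ≤ z) :
    (y + d).choose (s + 1) + z.choose (s + 1) ≤ (z + d).choose (s + 1) + y.choose (s + 1) := by
  induction d with
  | zero => simp only [Nat.add_zero]; omega
  | succ d ih =>
    have h1 : (y + (d + 1)).choose (s + 1) = (y + d).choose s + (y + d).choose (s + 1) :=
      Nat.choose_succ_succ _ _
    have h2 : (z + (d + 1)).choose (s + 1) = (z + d).choose s + (z + d).choose (s + 1) :=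
      Nat.choose_succ_succ _ _
    have h3 : (y + d).choose s ≤ (z + d).choose s := Nat.choose_le_choose s (by omega)
    omega

theorem main : S_SUP := by
  intro K r a b hK hr
  obtain ⟨s, rfl⟩ : ∃ s, r = s + 1 := ⟨r - 1, by omega⟩
  unfold f
  have hi : a % K < K := Nat.mod_lt _ hK
  have hj : b % K < K := Nat.mod_lt _ hK
  have h1 := Nat.add_div (a := a) (b := b) hK
  have h2 := Nat.add_mod_add_ite a b K
  by_cases h : K ≤ a % K + b % K
  · rw [if_pos h] at h1 h2
    have h3 := mono_diff s (a % K + b % K - K) (b % K) (K - b % K) (by omega)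
    have e1 : a % K + b % K - K + (K - b % K) = a % K := by omega
    have e2 : b % K + (K - b % K) = K := by omega
    have e3 : (a + b) % K = a % K + b % K - K := by omega
    rw [e1, e2] at h3
    rw [h1, e3]
    have e4 : (a / K + b / K + 1) * K.choose (s + 1) =
        a / K * K.choose (s + 1) + b / K * K.choose (s + 1) + K.choose (s + 1) := by ring
    rw [e4]
    omega
  · rw [if_neg h] at h1 h2
    have h3 := mono_diff s 0 (b % K) (a % K) (Nat.zero_le _)
    have e3 : (a + b) % K = b % K + a % K := by omega
    rw [Nat.zero_add, Nat.choose_zero_succ] at h3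
    rw [h1, e3]
    have e4 : (a / K + b / K + 0) * K.choose (s + 1) =
        a / K * K.choose (s + 1) + b / K * K.choose (s + 1) := by ring
    rw [e4]
    omega

end R367.TF.SUP
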