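import Pool.Agent.R367.TF.Stm

set_option autoImplicit false

namespace R367.TF.TREE

open Finset

theorem uniq {k : ℕ} (T : SimpleGraph (Fin k)) (hT : T.IsTree) (x w u u' : Fin k)
    (hu : T.Adj w u) (hu' : T.Adj w u') (h1 : T.dist x u + 1 = T.dist x w)
    (h2 : T.dist x u' + 1 = T.dist x w) : u = u' := by
  obtain ⟨q, hq, hql⟩ := (hT.connected x u).exists_path_of_dist
  obtain ⟨q', hq', hql'⟩ := (hT.connected x u').exists_path_of_dist
  have hp : (q.concat hu.symm).IsPath := by
    apply SimpleGraph.Walk.isPath_of_length_eq_dist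
    rw [SimpleGraph.Walk.length_concat, hql, h1]
  have hp' : (q'.concat hu'.symm).IsPath := by
    apply SimpleGraph.Walk.isPath_of_length_eq_dist
    rw [SimpleGraph.Walk.length_concat, hql', h2]
  have h3 := Subtype.mk.inj ((hT.isAcyclic.subsingleton_path x w).elim
    ⟨_, hp⟩ ⟨_, hp'⟩)
  have h4 := congrArg SimpleGraph.Walk.penultimate h3
  simpa using h4

theorem exi {k : ℕ} (T : SimpleGraph (Fin k)) (hT : T.IsTree) (x w : Fin k) (hw : w ≠ x) :
    ∃ u, T.Adj w u ∧ T.dist x u + 1 = T.dist x w := by
  obtain ⟨q, hq, hql⟩ := (hT.connected x w).exists_path_of_dist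
  have hnil : ¬ q.Nil := fun h => hw h.eq.symm
  refine ⟨q.penultimate, (q.adj_penultimate hnil).symm, ?_⟩
  have h1 : T.dist x q.penultimate ≤ q.dropLast.length := SimpleGraph.dist_le _
  have h2 := hT.dist_eq_dist_add_one_of_adj x (q.adj_penultimate hnil)
  have h3 : q.dropLast.length + 1 = q.length := by
    simp
    have : 0 < q.length := by
      rw [SimpleGraph.Walk.not_nil_iff_lt_length] at hnil
      exact hnil
    omega
  omega

theorem main : S_TREE := by
  intro k T x hT
  classical
  refine ⟨fun w => T.dist x w, fun w => if h : w ≠ x then (exi T hT x w h).choose else x,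
    by simp, ?_⟩
  intro w hw
  have hs := (exi T hT x w hw).choose_spec
  simp only [ne_eq, hw, not_false_eq_true, dif_pos]
  refine ⟨hs.1, hs.2, ?_⟩
  intro u hu
  rcases hT.dist_eq_dist_add_one_of_adj x hu with h | h
  · left
    exact uniq T hT x w u _ hu hs.1 h.symm hs.2
  · right
    exact h

end R367.TF.TREE
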